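import Mathlib

/-!
# Roots and constant coefficients of the factors of a polynomial (helper31)
-/

set_option autoImplicit false

namespace Run7.h31.ES

open Polynomial

section roots

variable {F L Y : Type*} [Field F] [Field L] [Algebra F L] [Fintype Y]

open Classical in
theorem map_eq_prod (val : Y → L) (hinj : Function.Injective val) {h : F[X]} (hm : h.Monic)
    (hirr : Irreducible h) (hs : (h.map (algebraMap F L)).Splits) (hsep : h.Separable)
    (hval : ∀ z : L, aeval z h = 0 → ∃ y, val y = z) :
    h.map (algebraMap F L) =
      ∏ y ∈ Finset.univ.filter (fun y => minpoly F (val y) = h), (X - C (val y)) := by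
  have hnd : (h.map (algebraMap F L)).roots.Nodup := nodup_roots hsep.map
  have h1 : h.map (algebraMap F L) =
      ((h.map (algebraMap F L)).roots.map (fun a => X - C a)).prod :=
    hs.eq_prod_roots_of_monic (hm.map _)
  have h0 : h.map (algebraMap F L) ≠ 0 := (hm.map _).ne_zero
  have h2 : (Finset.univ.filter (fun y => minpoly F (val y) = h)).val.map val =
      (h.map (algebraMap F L)).roots := by
    refine (Multiset.Nodup.ext ((Finset.nodup _).map hinj) hnd).2 fun z => ?_
    rw [mem_roots h0, IsRoot.def, eval_map_algebraMap]
    constructor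
    · intro hz
      obtain ⟨y, hy, rfl⟩ := Multiset.mem_map.1 hz
      have hy' : minpoly F (val y) = h := by simpa using hy
      rw [← hy']
      exact minpoly.aeval _ _
    · intro hz
      obtain ⟨y, rfl⟩ := hval z hz
      refine Multiset.mem_map.2 ⟨y, ?_, rfl⟩
      have : minpoly F (val y) = h := (minpoly.eq_of_irreducible_of_monic hirr hz hm).symm
      simpa using this
  rw [h1, ← h2, Multiset.map_map]
  rfl

open Classical in
theorem natDegree_eq_card (val : Y → L) (hinj : Function.Injective val) {h : F[X]} (hm : h.Monic)
    (hirr : Irreducible h) (hs : (h.map (algebraMap F L)).Splits) (hsep : h.Separable)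
    (hval : ∀ z : L, aeval z h = 0 → ∃ y, val y = z) :
    h.natDegree = (Finset.univ.filter (fun y => minpoly F (val y) = h)).card := by
  have h1 := congrArg natDegree (map_eq_prod val hinj hm hirr hs hsep hval)
  rw [natDegree_map, natDegree_prod_of_monic _ _ (fun y _ => monic_X_sub_C _)] at h1
  simpa using h1

open Classical in
theorem coeff_zero_eq (val : Y → L) (hinj : Function.Injective val) {h : F[X]} (hm : h.Monic)
    (hirr : Irreducible h) (hs : (h.map (algebraMap F L)).Splits) (hsep : h.Separable)
    (hval : ∀ z : L, aeval z h = 0 → ∃ y, val y = z) :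
    algebraMap F L (h.coeff 0) =
      ∏ y ∈ Finset.univ.filter (fun y => minpoly F (val y) = h), (-(val y)) := by
  have h1 := congrArg (fun f : L[X] => f.coeff 0) (map_eq_prod val hinj hm hirr hs hsep hval)
  simp only [coeff_map] at h1
  rw [h1, coeff_zero_eq_eval_zero, eval_prod]
  refine Finset.prod_congr rfl fun y _ => ?_
  simp

end roots

end Run7.h31.ES
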