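import Mathlib
import Pool.Agent.Run7.h31.ES.Roots
import Pool.Agent.H204R3.CM.Disc

/-!
# Embeddings and roots (helper31)
-/

set_option autoImplicit false
set_option linter.unusedSectionVars false

namespace Run7.h31.ES

open NumberField Module Polynomial IntermediateField Pool.Agent.H204R3.CM

variable {I : Type} {K : I → Type} [∀ i, Field (K i)] [∀ i, NumberField (K i)]
  {L : Type} [Field L] [NumberField L]

/-- The conjugate belonging to an embedding. -/
def val (π : ∀ i, K i) (x : Σ l, (K l →+* L)) : L := x.2 (π x.1)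

theorem minpoly_val (π : ∀ i, K i) (x : Σ l, (K l →+* L)) :
    minpoly ℚ (val π x) = minpoly ℚ (π x.1) :=
  minpoly.algHom_eq (x.2.toRatAlgHom) x.2.injective (π x.1)

theorem hom_ext_of_gen {E : Type} [Field E] [NumberField E] {a : E} (hgen : ℚ⟮a⟯ = ⊤)
    {φ ψ : E →+* L} (h : φ a = ψ a) : φ = ψ := by
  have h1 : φ.toRatAlgHom = ψ.toRatAlgHom := by
    apply AlgHom.ext
    intro x
    have hx : x ∈ ℚ⟮a⟯ := by rw [hgen]; trivial
    induction hx using IntermediateField.adjoin_induction with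
    | mem y hy => rw [Set.mem_singleton_iff.1 hy]; exact h
    | algebraMap r => simp
    | add x y _ _ hx hy => rw [map_add, map_add, hx, hy]
    | inv x _ hx => rw [map_inv₀, map_inv₀, hx]
    | mul x y _ _ hx hy => rw [map_mul, map_mul, hx, hy]
  exact RingHom.ext fun x => AlgHom.congr_fun h1 x

theorem val_injective {π : ∀ i, K i} (hgen : ∀ i, ℚ⟮π i⟯ = ⊤)
    (hdist : ∀ i l, minpoly ℚ (π i) = minpoly ℚ (π l) → i = l) :
    Function.Injective (val (L := L) π) := by
  rintro ⟨i, φ⟩ ⟨l, ψ⟩ h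
  have h1 : i = l := hdist i l (by rw [← minpoly_val π ⟨i, φ⟩, ← minpoly_val π ⟨l, ψ⟩, h])
  subst h1
  have h2 : φ = ψ := hom_ext_of_gen (hgen i) h
  rw [h2]

theorem exists_emb {π : ∀ i, K i} (hgen : ∀ i, ℚ⟮π i⟯ = ⊤) (l : I) {z : L}
    (hz : aeval z (minpoly ℚ (π l)) = 0) : ∃ ψ : K l →+* L, ψ (π l) = z := by
  have hint : IsIntegral ℚ (π l) := Algebra.IsIntegral.isIntegral _
  let e : ℚ⟮π l⟯ →ₐ[ℚ] L := (IntermediateField.adjoin.powerBasis hint).lift z (by
    rw [IntermediateField.adjoin.powerBasis_gen, IntermediateField.minpoly_gen]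
    exact hz)
  let t : K l ≃ₐ[ℚ] ℚ⟮π l⟯ :=
    ((IntermediateField.equivOfEq (hgen l)).trans IntermediateField.topEquiv).symm
  refine ⟨(e.comp (t : K l →ₐ[ℚ] ℚ⟮π l⟯) : K l →ₐ[ℚ] L), ?_⟩
  have h1 : t (π l) = IntermediateField.AdjoinSimple.gen ℚ (π l) := by
    change ((IntermediateField.equivOfEq (hgen l)).trans IntermediateField.topEquiv).symm (π l) = _
    rw [AlgEquiv.symm_apply_eq]
    rfl
  change e (t (π l)) = z
  rw [h1]
  have h2 : e (IntermediateField.adjoin.powerBasis hint).gen = z :=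
    (IntermediateField.adjoin.powerBasis hint).lift_gen z _
  rw [IntermediateField.adjoin.powerBasis_gen] at h2
  exact h2

end Run7.h31.ES
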