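import Mathlib
import Pool.Agent.Run7.h31.ES.Emb
import Pool.Agent.H204R3.CM.Nondeg

/-!
# Averages of relations over stabilisers (helper31)
-/

set_option autoImplicit false
set_option linter.unusedSectionVars false
set_option linter.style.haveILetI false

namespace Run7.h31.ES

open NumberField Module Polynomial IntermediateField Pool.Agent.H204R3.CM

variable {I : Type} {K : I → Type} [∀ i, Field (K i)] [∀ i, NumberField (K i)]
  {L : Type} [Field L] [NumberField L]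

/-- The minimal polynomial of a conjugate over one of the fields, embedded by `φ`. -/
noncomputable def mp (π : ∀ i, K i) {i : I} (φ : K i →+* L) (x : Σ l, (K l →+* L)) : (K i)[X] :=
  @minpoly (K i) L _ _ φ.toAlgebra (val π x)

/-- The Galois group acts on the embeddings of all the fields. -/
def act (σ : L ≃ₐ[ℚ] L) : (Σ l, (K l →+* L)) ≃ (Σ l, (K l →+* L)) :=
  Equiv.sigmaCongrRight fun _ => MulAction.toPerm σ

theorem act_mk (σ : L ≃ₐ[ℚ] L) (x : Σ l, (K l →+* L)) : act σ x = ⟨x.1, σ • x.2⟩ := rfl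

theorem act_mul (σ τ : L ≃ₐ[ℚ] L) (x : Σ l, (K l →+* L)) : act (σ * τ) x = act σ (act τ x) := rfl

theorem val_act (π : ∀ i, K i) (σ : L ≃ₐ[ℚ] L) (x : Σ l, (K l →+* L)) :
    val π (act σ x) = σ (val π x) := rfl

theorem mp_self {π : ∀ i, K i} (hgen : ∀ i, ℚ⟮π i⟯ = ⊤)
    (hdist : ∀ i l, minpoly ℚ (π i) = minpoly ℚ (π l) → i = l) {i : I} (φ : K i →+* L)
    {x : Σ l, (K l →+* L)} (h : mp π φ x = X - C (π i)) : x = ⟨i, φ⟩ := by
  letI := φ.toAlgebra
  apply val_injective hgen hdist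
  have h1 : aeval (val π x) (mp π φ x) = 0 := minpoly.aeval (K i) (val π x)
  rw [h, map_sub, aeval_X, aeval_C, sub_eq_zero] at h1
  exact h1

theorem mp_bar [∀ i, IsCMField (K i)] {π : ∀ i, K i} (hgen : ∀ i, ℚ⟮π i⟯ = ⊤)
    (hdist : ∀ i l, minpoly ℚ (π i) = minpoly ℚ (π l) → i = l) {i : I} (φ : K i →+* L)
    {x : Σ l, (K l →+* L)} (h : mp π φ x = X - C (IsCMField.complexConj (K i) (π i))) :
    x = ⟨i, cbar φ⟩ := by
  letI := φ.toAlgebra
  apply val_injective hgen hdist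
  have h1 : aeval (val π x) (mp π φ x) = 0 := minpoly.aeval (K i) (val π x)
  rw [h, map_sub, aeval_X, aeval_C, sub_eq_zero] at h1
  exact h1

theorem tower (i : I) (φ : K i →+* L) :
    @IsScalarTower ℚ (K i) L _ φ.toAlgebra.toSMul _ := by
  letI := φ.toAlgebra
  exact IsScalarTower.of_algebraMap_eq' (RingHom.ext_rat _ _)

theorem mp_orbit [IsGalois ℚ L] {π : ∀ i, K i} (hgen : ∀ i, ℚ⟮π i⟯ = ⊤)
    (hdist : ∀ i l, minpoly ℚ (π i) = minpoly ℚ (π l) → i = l) {i : I} (φ : K i →+* L)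
    {x y : Σ l, (K l →+* L)} (h : mp π φ x = mp π φ y) :
    ∃ τ : L ≃ₐ[ℚ] L, τ • φ = φ ∧ act τ x = y := by
  letI := φ.toAlgebra
  haveI : IsScalarTower ℚ (K i) L := tower i φ
  haveI : Normal (K i) L := Normal.tower_top_of_normal ℚ (K i) L
  obtain ⟨g, hg⟩ := (Normal.minpoly_eq_iff_mem_orbit L).mp
    (show minpoly (K i) (val π y) = minpoly (K i) (val π x) from h.symm)
  refine ⟨g.restrictScalars ℚ, ?_, ?_⟩
  · refine RingHom.ext fun a => ?_
    exact g.commutes a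
  · apply val_injective hgen hdist
    exact hg

theorem exists_max {X : Type} [Fintype X] (c : X → ℚ) (h : ∃ x, c x ≠ 0) (w : X → ℚ)
    (hw : ∀ x, 0 < w x) : ∃ x0, c x0 ≠ 0 ∧ ∀ x, w x * |c x| ≤ w x0 * |c x0| := by
  obtain ⟨x1, h1⟩ := h
  obtain ⟨x0, _, h0⟩ := Finset.exists_max_image Finset.univ (fun x => w x * |c x|)
    ⟨x1, Finset.mem_univ _⟩
  refine ⟨x0, ?_, fun x => h0 x (Finset.mem_univ _)⟩
  intro hz
  have h2 := h0 x1 (Finset.mem_univ _)
  simp only [hz, abs_zero, mul_zero] at h2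
  have h3 : 0 < w x1 * |c x1| := mul_pos (hw x1) (abs_pos.2 h1)
  linarith

variable [Fintype I] [∀ i, IsCMField (K i)] [IsGalois ℚ L]

/-- complex conjugation on the embeddings of all the fields. -/
noncomputable def xbar (x : Σ l, (K l →+* L)) : Σ l, (K l →+* L) := ⟨x.1, cbar x.2⟩

theorem xbar_ne (x : Σ l, (K l →+* L)) : xbar x ≠ x := by
  intro h
  exact cbar_ne x.2 (eq_of_heq (Sigma.mk.inj h).2)

/-- If the translates of `e` satisfy a nontrivial odd relation, then for some embedding `x0` the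
translates of `e x0` are combinations of the sums of `e` over the other orbits of the stabiliser of
`x0`, with coefficients of absolute value at most one half. -/
theorem core {π : ∀ i, K i} (hgen : ∀ i, ℚ⟮π i⟯ = ⊤)
    (hdist : ∀ i l, minpoly ℚ (π i) = minpoly ℚ (π l) → i = l)
    (c : (Σ l, (K l →+* L)) → ℚ) (e : (Σ l, (K l →+* L)) → ℝ)
    (hc : ∀ x, c (xbar x) = - c x) (he : ∀ x, e (xbar x) = - e x)
    (hrel : ∀ σ : L ≃ₐ[ℚ] L, ∑ x, (c x : ℝ) * e (act σ x) = 0) (hnz : ∃ x, c x ≠ 0)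
    (w : I → ℚ) (hw : ∀ i, 0 < w i) :
    ∃ (x0 : Σ l, (K l →+* L)) (b : (K x0.1)[X] → ℚ),
      (∀ x, 2 * w x.1 * |b (mp π x0.2 x)| ≤ w x0.1) ∧
      b (X - C (π x0.1)) = 0 ∧ b (X - C (IsCMField.complexConj (K x0.1) (π x0.1))) = 0 ∧
      ∀ σ : L ≃ₐ[ℚ] L, e (act σ x0) = ∑ x, (b (mp π x0.2 x) : ℝ) * e (act σ x) := by
  classical
  obtain ⟨x0, hx0, hmax⟩ := exists_max c hnz (fun x => w x.1) (fun x => hw x.1)
  let H : Finset (L ≃ₐ[ℚ] L) := Finset.univ.filter fun τ => τ • x0.2 = x0.2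
  have hH : ∀ τ : L ≃ₐ[ℚ] L, τ ∈ H ↔ τ • x0.2 = x0.2 := fun τ => by simp [H]
  let Cb : (Σ l, (K l →+* L)) → ℚ := fun x => ∑ τ ∈ H, c (act τ x)
  have hbar : ∀ (τ : L ≃ₐ[ℚ] L) (x : Σ l, (K l →+* L)), act τ (xbar x) = xbar (act τ x) := fun τ x => rfl
  have hfix : ∀ τ ∈ H, act τ x0 = x0 := by
    intro τ hτ
    rw [act_mk, (hH τ).1 hτ]
  have hCinv : ∀ s ∈ H, ∀ x, Cb (act s x) = Cb x := by
    intro s hs x
    refine Finset.sum_bij (fun τ _ => τ * s) ?_ ?_ ?_ ?_
    · intro τ hτ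
      rw [hH] at hτ hs ⊢
      rw [mul_smul, hs, hτ]
    · intro a _ b _ hab
      exact mul_right_cancel hab
    · intro b hb
      refine ⟨b * s⁻¹, ?_, by group⟩
      rw [hH] at hb hs ⊢
      rw [mul_smul]
      have : s⁻¹ • x0.2 = x0.2 := by rw [inv_smul_eq_iff, hs]
      rw [this, hb]
    · intro τ _
      rfl
  have hCbar : ∀ x, Cb (xbar x) = - Cb x := by
    intro x
    simp only [Cb, hbar, hc, Finset.sum_neg_distrib]
  have hC0 : Cb x0 = H.card * c x0 := by
    simp only [Cb]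
    rw [Finset.sum_congr rfl (g := fun _ => c x0) (fun τ hτ => by rw [hfix τ hτ]),
      Finset.sum_const, nsmul_eq_mul]
  have hcard : (0 : ℚ) < H.card := by
    have : (1 : L ≃ₐ[ℚ] L) ∈ H := by rw [hH, one_smul]
    exact_mod_cast Finset.card_pos.2 ⟨1, this⟩
  have hC0ne : Cb x0 ≠ 0 := by
    rw [hC0]
    exact mul_ne_zero hcard.ne' hx0
  have hCle : ∀ x, w x.1 * |Cb x| ≤ w x0.1 * |Cb x0| := by
    intro x
    calc w x.1 * |Cb x| ≤ w x.1 * ∑ τ ∈ H, |c (act τ x)| :=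
          mul_le_mul_of_nonneg_left (Finset.abs_sum_le_sum_abs _ _) (hw _).le
      _ = ∑ τ ∈ H, w x.1 * |c (act τ x)| := Finset.mul_sum _ _ _
      _ ≤ ∑ τ ∈ H, w x0.1 * |c x0| := Finset.sum_le_sum fun τ _ => hmax (act τ x)
      _ = w x0.1 * |Cb x0| := by
        rw [Finset.sum_const, nsmul_eq_mul, hC0, abs_mul, abs_of_pos hcard]
        ring
  have hCrel : ∀ σ : L ≃ₐ[ℚ] L, ∑ x, (Cb x : ℝ) * e (act σ x) = 0 := by
    intro σ
    have h1 : ∀ τ ∈ H, ∑ x, (c (act τ x) : ℝ) * e (act σ x) = 0 := by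
      intro τ _
      rw [← hrel (σ * τ⁻¹)]
      refine Fintype.sum_equiv (act τ) _ _ fun x => ?_
      rw [← act_mul]
      congr 2
      rw [inv_mul_cancel_right]
    have h2 : ∑ x, (Cb x : ℝ) * e (act σ x) =
        ∑ τ ∈ H, ∑ x, (c (act τ x) : ℝ) * e (act σ x) := by
      rw [Finset.sum_comm]
      refine Finset.sum_congr rfl fun x _ => ?_
      simp only [Cb]
      push_cast
      rw [Finset.sum_mul]
    rw [h2]
    exact Finset.sum_eq_zero h1
  have hmp : ∀ x y, mp π x0.2 x = mp π x0.2 y → Cb x = Cb y := by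
    intro x y h
    obtain ⟨τ, hτ, rfl⟩ := mp_orbit hgen hdist x0.2 h
    rw [hCinv τ ((hH τ).2 hτ)]
  let b : (K x0.1)[X] → ℚ := fun h =>
    if h = X - C (π x0.1) ∨ h = X - C (IsCMField.complexConj (K x0.1) (π x0.1)) then 0
    else if hh : ∃ x, mp π x0.2 x = h then -(Cb hh.choose) / (2 * Cb x0) else 0
  have hb1 : ∀ x, x ≠ x0 → x ≠ xbar x0 → b (mp π x0.2 x) = -(Cb x) / (2 * Cb x0) := by
    intro x h1 h2
    simp only [b]
    rw [if_neg]
    · have hh : ∃ y, mp π x0.2 y = mp π x0.2 x := ⟨x, rfl⟩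
      rw [dif_pos hh, hmp _ _ hh.choose_spec]
    · rintro (h | h)
      · exact h1 (mp_self hgen hdist x0.2 h)
      · exact h2 (mp_bar hgen hdist x0.2 h)
  have hb0 : b (mp π x0.2 x0) = 0 := by
    have : mp π x0.2 x0 = X - C (π x0.1) := by
      letI := x0.2.toAlgebra
      exact minpoly.eq_X_sub_C L (π x0.1)
    simp only [b]
    rw [if_pos (Or.inl this)]
  have hb2 : b (mp π x0.2 (xbar x0)) = 0 := by
    have : mp π x0.2 (xbar x0) = X - C (IsCMField.complexConj (K x0.1) (π x0.1)) := by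
      letI := x0.2.toAlgebra
      exact minpoly.eq_X_sub_C L (IsCMField.complexConj (K x0.1) (π x0.1))
    simp only [b]
    rw [if_pos (Or.inr this)]
  have hq : (0 : ℚ) < |Cb x0| := abs_pos.2 hC0ne
  refine ⟨x0, b, ?_, ?_, ?_, ?_⟩
  · intro x
    by_cases h1 : x = x0
    · rw [h1, hb0, abs_zero, mul_zero]
      exact (hw _).le
    · by_cases h2 : x = xbar x0
      · rw [h2, hb2, abs_zero, mul_zero]
        exact (hw _).le
      · rw [hb1 x h1 h2, abs_div, abs_neg, abs_mul, abs_two, ← mul_div_assoc,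
          div_le_iff₀ (by positivity)]
        have h3 := hCle x
        linarith
  · simp only [b]
    rw [if_pos (Or.inl trivial)]
  · simp only [b]
    rw [if_pos (Or.inr trivial)]
  · intro σ
    have hne : x0 ≠ xbar x0 := (xbar_ne x0).symm
    have hC0R : (Cb x0 : ℝ) ≠ 0 := by exact_mod_cast hC0ne
    have h1 : ∀ x, (b (mp π x0.2 x) : ℝ) * e (act σ x) = -(2 * (Cb x0 : ℝ))⁻¹ *
        ((Cb x : ℝ) * e (act σ x) - (if x = x0 then (Cb x0 : ℝ) * e (act σ x0) else 0) -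
          (if x = xbar x0 then (Cb x0 : ℝ) * e (act σ x0) else 0)) := by
      intro x
      by_cases h1 : x = x0
      · subst h1
        rw [hb0, if_pos rfl, if_neg hne]
        simp
      · by_cases h2 : x = xbar x0
        · subst h2
          rw [hb2, if_neg h1, if_pos rfl, hCbar, hbar, he]
          push_cast
          ring
        · rw [hb1 x h1 h2, if_neg h1, if_neg h2]
          push_cast
          field_simp
          ring
    rw [Finset.sum_congr rfl fun x _ => h1 x, ← Finset.mul_sum, Finset.sum_sub_distrib,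
      Finset.sum_sub_distrib, hCrel, Finset.sum_ite_eq' Finset.univ, Finset.sum_ite_eq' Finset.univ,
      if_pos (Finset.mem_univ _), if_pos (Finset.mem_univ _)]
    field_simp
    ring

end Run7.h31.ES
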