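import Mathlib
import Pool.Agent.Run7.h142.TF.Defs
import Pool.Agent.Y137.MV.Defs

/-!
# The exact slope criterion: definitions (helper31)
-/

set_option autoImplicit false

namespace Run7.h31.ES

open NumberField Polynomial Pool.Agent.Run7.h142.TF Pool.Agent.Y137.MV

variable {I : Type} {K : I → Type} [∀ i, Field (K i)] [∀ i, NumberField (K i)]
  [∀ i, IsCMField (K i)]

/-- The algebraic integers `π i` generate the CM fields `K i`, all complex absolute values of `π i` are
`p ^ (m i / 2)`, and the `π i` are pairwise not conjugate. -/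
structure IsWeilFamily (p : ℕ) (m : I → ℕ) (π : ∀ i, K i) : Prop where
  integral : ∀ i, IsIntegral ℤ (π i)
  generates : ∀ i, IntermediateField.adjoin ℚ {π i} = ⊤
  weil : ∀ i, ∀ φ : K i →+* ℂ, ‖φ (π i)‖ ^ 2 = (p : ℝ) ^ m i
  distinct : ∀ i l, minpoly ℚ (π i) = minpoly ℚ (π l) → i = l

/-- `h` is a monic irreducible factor, over `K i`, of the minimal polynomial of `π l`, different from
the two linear factors of the minimal polynomial of `π i` that belong to `π i` and its complex
conjugate. -/
structure IsOther (π : ∀ i, K i) (i l : I) (h : (K i)[X]) : Prop where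
  monic : h.Monic
  irr : Irreducible h
  dvd : h ∣ (minpoly ℚ (π l)).map (algebraMap ℚ (K i))
  ne : h ≠ X - C (π i)
  ne_conj : h ≠ X - C (IsCMField.complexConj (K i) (π i))

/-- The slope function of a factor `h` over `F` of the minimal polynomial of a number of weight `m`:
for an embedding `τ` of `F` in the algebraic closure of `ℚ_p` it is the sum of the deviations
`2 ord_p y - m` over the roots `y` of `τ h`, and this is `2 ord_p (τ (h 0)) - m * deg h`. -/
noncomputable def slope (p m : ℕ) [Fact p.Prime] {F : Type} [Field F] (h : F[X]) :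
    (F →+* PadicAlgCl p) → ℝ := dev p (m * h.natDegree) (h.coeff 0)

/-- For every `i` the slope function of `π i` is not a linear combination, with rational
coefficients, of the slope functions of the other factors over `K i`. -/
def SlopesIndependent (p : ℕ) [Fact p.Prime] (m : I → ℕ) (π : ∀ i, K i) : Prop :=
  ∀ i, dev p (m i) (π i) ∉ Submodule.span ℚ {D | ∃ l h, IsOther π i l h ∧ D = slope p (m l) h}

/-- For no `i` the slope function of `π i` is a linear combination of the slope functions of the
other factors with rational coefficients `b s` which are small: if `s` is a factor of the minimal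
polynomial of `π l` then `2 w l |b s| ≤ w i`. -/
def NoSmallCombination (p : ℕ) [Fact p.Prime] (m : I → ℕ) (π : ∀ i, K i) (w : I → ℚ) : Prop :=
  ∀ i, ¬ ∃ (S : Finset (I × (K i)[X])) (b : I × (K i)[X] → ℚ),
    (∀ s ∈ S, IsOther π i s.1 s.2 ∧ 2 * w s.1 * |b s| ≤ w i) ∧
      dev p (m i) (π i) = ∑ s ∈ S, b s • slope p (m s.1) s.2

/-- For every `i` there is an embedding `τ` of `K i` in the algebraic closure of `ℚ_p` at which the
slope function of `π i` dominates: the sum of the `|slope h τ| / w l` over any other factors `h`
(of the minimal polynomials of the `π l`) is less than `2 |slope (π i) τ| / w i`. -/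
def Dominates (p : ℕ) [Fact p.Prime] (m : I → ℕ) (π : ∀ i, K i) (w : I → ℚ) : Prop :=
  ∀ i, ∃ τ : K i →+* PadicAlgCl p, ∀ S : Finset (I × (K i)[X]),
    (∀ s ∈ S, IsOther π i s.1 s.2) →
      ∑ s ∈ S, |slope p (m s.1) s.2 τ| / (w s.1 : ℝ) < 2 * |dev p (m i) (π i) τ| / (w i : ℝ)

/-- For `l ≠ i` every irreducible factor over `K i` of the minimal polynomial of `π l` has a real
constant coefficient (for instance: the minimal polynomial of `π l` is irreducible over `K i`). -/
def RealCrossFactors (π : ∀ i, K i) : Prop :=
  ∀ i l, l ≠ i → ∀ h : (K i)[X], h.Monic → Irreducible h →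
    h ∣ (minpoly ℚ (π l)).map (algebraMap ℚ (K i)) →
      IsCMField.complexConj (K i) (h.coeff 0) = h.coeff 0

/-- The exact criterion for Weil numbers for `p ^ a`. The angle rank is maximal if and only if for
each `i` the slope function of `π i` is not a rational linear combination of the slope functions of
the other factors over `K i`; it is enough to exclude the combinations with small coefficients, for
any choice of positive weights; this is true if the slope function of `π i` dominates; and if the
minimal polynomials of the `π l`, `l ≠ i`, have only factors with real constant coefficients over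
`K i`, then the numbers `π i` can be considered one by one. -/
def ExactCriterion (p a : ℕ) [Fact p.Prime] [Fintype I] (π : ∀ i, K i) : Prop :=
  (MaximalAngleRank (p ^ a) π ↔ SlopesIndependent p (fun _ => a) π) ∧
  (∀ w : I → ℚ, (∀ i, 0 < w i) →
    (SlopesIndependent p (fun _ => a) π ↔ NoSmallCombination p (fun _ => a) π w) ∧
    (Dominates p (fun _ => a) π w → SlopesIndependent p (fun _ => a) π)) ∧
  (RealCrossFactors π → (SlopesIndependent p (fun _ => a) π ↔
    ∀ i, SlopesIndependent (I := Unit) (K := fun _ => K i) p (fun _ => a) (fun _ => π i)))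

theorem noSmall_of_dominates {p : ℕ} [Fact p.Prime] {m : I → ℕ} {π : ∀ i, K i} {w : I → ℚ}
    (hw : ∀ i, 0 < w i) (h : Dominates p m π w) : NoSmallCombination p m π w := by
  rintro i ⟨S, b, hS, hb⟩
  obtain ⟨τ, hτ⟩ := h i
  have h1 := hτ S fun s hs => (hS s hs).1
  have h2 := congrFun hb τ
  rw [Finset.sum_apply] at h2
  have hwR : ∀ i, (0 : ℝ) < w i := fun i => by exact_mod_cast hw i
  have h3 : 2 * |dev p (m i) (π i) τ| / (w i : ℝ) ≤
      ∑ s ∈ S, |slope p (m s.1) s.2 τ| / (w s.1 : ℝ) := by
    rw [h2, div_le_iff₀ (hwR i)]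
    calc 2 * |∑ s ∈ S, (b s • slope p (m s.1) s.2) τ|
        ≤ 2 * ∑ s ∈ S, |(b s • slope p (m s.1) s.2) τ| := by
          have := Finset.abs_sum_le_sum_abs (fun s => (b s • slope p (m s.1) s.2) τ) S
          linarith
      _ = ∑ s ∈ S, 2 * |(b s : ℝ)| * |slope p (m s.1) s.2 τ| := by
          rw [Finset.mul_sum]
          refine Finset.sum_congr rfl fun s _ => ?_
          rw [Pi.smul_apply, Rat.smul_def, abs_mul]
          ring
      _ ≤ ∑ s ∈ S, (w i : ℝ) / (w s.1 : ℝ) * |slope p (m s.1) s.2 τ| := by
          refine Finset.sum_le_sum fun s hs => ?_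
          refine mul_le_mul_of_nonneg_right ?_ (abs_nonneg _)
          rw [le_div_iff₀ (hwR _)]
          have h4 : 2 * (w s.1 : ℝ) * |(b s : ℝ)| ≤ (w i : ℝ) := by exact_mod_cast (hS s hs).2
          linarith
      _ = (∑ s ∈ S, |slope p (m s.1) s.2 τ| / (w s.1 : ℝ)) * (w i : ℝ) := by
          rw [Finset.sum_mul]
          refine Finset.sum_congr rfl fun s _ => ?_
          ring
  exact absurd h1 (not_lt.2 h3)

theorem noSmall_of_independent {p : ℕ} [Fact p.Prime] {m : I → ℕ} {π : ∀ i, K i} {w : I → ℚ}
    (h : SlopesIndependent p m π) : NoSmallCombination p m π w := by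
  rintro i ⟨S, b, hS, hb⟩
  refine h i ?_
  rw [hb]
  exact Submodule.sum_mem _ fun s hs => Submodule.smul_mem _ _
    (Submodule.subset_span ⟨s.1, s.2, (hS s hs).1, rfl⟩)

end Run7.h31.ES
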