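import Mathlib
import Pool.Agent.Run7.h31.ES.Core
import Pool.Agent.Run7.h31.ES.Defs
import Pool.Agent.H977R3.WN.Crit

/-!
# Relations between conjugates and slope functions of factors (helper31)
-/

set_option autoImplicit false
set_option linter.unusedSectionVars false
set_option linter.style.haveILetI false

namespace Run7.h31.ES

open NumberField Module Polynomial IntermediateField Pool.Agent.H204R3.CM Pool.Agent.Run7.h142.TF

variable {I : Type} {K : I → Type} [∀ i, Field (K i)] [∀ i, NumberField (K i)]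
  {L : Type} [Field L] [NumberField L] [IsGalois ℚ L] {π : ∀ i, K i}

section factor

variable (hgen : ∀ i, ℚ⟮π i⟯ = ⊤) (hdist : ∀ i l, minpoly ℚ (π i) = minpoly ℚ (π l) → i = l)
  (hne : ∀ l, Nonempty (K l →+* L)) {i l : I} (φ : K i →+* L) {h : (K i)[X]} (hm : h.Monic)
  (hirr : Irreducible h) (hdvd : h ∣ (minpoly ℚ (π l)).map (algebraMap ℚ (K i)))

include hne in
theorem splits_minpoly (l : I) : ((minpoly ℚ (π l)).map (algebraMap ℚ L)).Splits := by
  obtain ⟨ψ⟩ := hne l
  have h1 := Normal.splits (inferInstance : Normal ℚ L) (ψ (π l))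
  have h2 : minpoly ℚ (ψ (π l)) = minpoly ℚ (π l) := minpoly_val π ⟨l, ψ⟩
  rwa [h2] at h1

include hdvd in
theorem aeval_minpoly {z : L} (hz : @aeval (K i) L _ _ φ.toAlgebra z h = 0) :
    aeval z (minpoly ℚ (π l)) = 0 := by
  letI := φ.toAlgebra
  haveI : IsScalarTower ℚ (K i) L := tower i φ
  obtain ⟨g, hg⟩ := hdvd
  have h1 : aeval z ((minpoly ℚ (π l)).map (algebraMap ℚ (K i))) = 0 := by
    rw [hg, map_mul, hz, zero_mul]
  rwa [aeval_map_algebraMap] at h1

include hgen hdvd in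
theorem exists_val {z : L} (hz : @aeval (K i) L _ _ φ.toAlgebra z h = 0) :
    ∃ y : Σ l, (K l →+* L), val π y = z := by
  obtain ⟨ψ, hψ⟩ := exists_emb hgen l (aeval_minpoly φ hdvd hz)
  exact ⟨⟨l, ψ⟩, hψ⟩

include hdist hdvd in
theorem fst_eq {x : Σ l, (K l →+* L)} (hx : mp π φ x = h) : x.1 = l := by
  letI := φ.toAlgebra
  have h1 : aeval (val π x) h = 0 := by
    rw [← hx]
    exact minpoly.aeval (K i) (val π x)
  have h2 := aeval_minpoly φ hdvd h1
  apply hdist
  rw [← minpoly_val π x]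
  exact (minpoly.eq_of_irreducible_of_monic (minpoly.irreducible (Algebra.IsIntegral.isIntegral _))
    h2 (minpoly.monic (Algebra.IsIntegral.isIntegral _))).symm

include hne hdvd in
theorem splits_factor : (h.map φ).Splits := by
  letI := φ.toAlgebra
  haveI : IsScalarTower ℚ (K i) L := tower i φ
  have h1 := splits_minpoly (π := π) hne l
  rw [IsScalarTower.algebraMap_eq ℚ (K i) L, ← Polynomial.map_map] at h1
  refine h1.of_dvd ?_ (Polynomial.map_dvd _ hdvd)
  rw [Polynomial.map_map, ← IsScalarTower.algebraMap_eq ℚ (K i) L]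
  exact (minpoly.monic (Algebra.IsIntegral.isIntegral (π l))).map _ |>.ne_zero

variable [Fintype I] [DecidableEq (K i)[X]]

include hgen hdist hne hm hirr hdvd in
theorem coeff_zero_val : φ (h.coeff 0) =
    ∏ x ∈ Finset.univ.filter (fun x : Σ l, (K l →+* L) => mp π φ x = h), (-(val π x)) := by
  letI := φ.toAlgebra
  have h1 := coeff_zero_eq (F := K i) (L := L) (val π) (val_injective hgen hdist) hm hirr
    (splits_factor hne φ hdvd) hirr.separable (fun z hz => exists_val hgen φ hdvd hz)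
  refine Eq.trans h1 ?_
  refine Finset.prod_congr ?_ fun _ _ => rfl
  ext x
  simp only [Finset.mem_filter, Finset.mem_univ, true_and]
  rfl

include hgen hdist hne hm hirr hdvd in
theorem natDegree_val : h.natDegree =
    (Finset.univ.filter (fun x : Σ l, (K l →+* L) => mp π φ x = h)).card := by
  letI := φ.toAlgebra
  have h1 := natDegree_eq_card (F := K i) (L := L) (val π) (val_injective hgen hdist) hm hirr
    (splits_factor hne φ hdvd) hirr.separable (fun z hz => exists_val hgen φ hdvd hz)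
  refine Eq.trans h1 ?_
  congr 1
  ext x
  simp only [Finset.mem_filter, Finset.mem_univ, true_and]
  rfl

include hgen hdist hne hm hirr hdvd in
/-- The slope function of a factor is the sum of the deviations over its roots. -/
theorem slope_eq {p : ℕ} [Fact p.Prime] {m : I → ℕ} (hπ0 : ∀ i, π i ≠ 0)
    (jp : L →+* PadicAlgCl p) (σ : L ≃ₐ[ℚ] L) :
    slope p (m l) h (jp.comp (σ • φ)) =
      ∑ x ∈ Finset.univ.filter (fun x : Σ l, (K l →+* L) => mp π φ x = h),
        dev p (m x.1) (π x.1) (jp.comp (σ • x.2)) := by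
  have h1 : ‖(jp.comp (σ • φ)) (h.coeff 0)‖ =
      ∏ x ∈ Finset.univ.filter (fun x : Σ l, (K l →+* L) => mp π φ x = h),
        ‖jp (σ (val π x))‖ := by
    change ‖jp (σ (φ (h.coeff 0)))‖ = _
    rw [coeff_zero_val hgen hdist hne φ hm hirr hdvd, map_prod, map_prod, norm_prod]
    refine Finset.prod_congr rfl fun x _ => ?_
    rw [map_neg, map_neg, norm_neg]
  have h2 : ∀ x ∈ Finset.univ.filter (fun x : Σ l, (K l →+* L) => mp π φ x = h),
      dev p (m x.1) (π x.1) (jp.comp (σ • x.2)) =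
        2 * (-Real.logb p ‖jp (σ (val π x))‖) - m l := by
    intro x hx
    have h3 : x.1 = l := fst_eq hdist φ hdvd (by simpa using hx)
    change 2 * (-Real.logb p ‖jp (σ (val π x))‖) - ((m x.1 : ℕ) : ℝ) = _
    rw [h3]
  rw [Finset.sum_congr rfl h2]
  unfold slope dev
  rw [h1, Real.logb_prod, Finset.sum_sub_distrib, Finset.sum_const, nsmul_eq_mul,
    ← natDegree_val hgen hdist hne φ hm hirr hdvd, ← Finset.mul_sum, Finset.sum_neg_distrib]
  · push_cast
    ring
  · intro x _
    rw [norm_ne_zero_iff, Ne, map_eq_zero, map_eq_zero]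
    exact (_root_.map_ne_zero x.2).2 (hπ0 x.1)

end factor

/-- A nontrivial odd relation between the deviations gives a small combination. -/
theorem not_noSmall [Fintype I] [∀ i, IsCMField (K i)] (hgen : ∀ i, ℚ⟮π i⟯ = ⊤)
    (hdist : ∀ i l, minpoly ℚ (π i) = minpoly ℚ (π l) → i = l) (j : L →+* ℂ)
    (hj : ∀ i, ∀ ψ : K i →+* ℂ, ∃ φ : K i →+* L, j.comp φ = ψ) {p : ℕ} [Fact p.Prime]
    {m : I → ℕ} (hπ0 : ∀ i, π i ≠ 0) (jp : L →+* PadicAlgCl p)
    (hodd : ∀ i (τ : K i →+* PadicAlgCl p), dev p (m i) (π i) (cbar τ) = - dev p (m i) (π i) τ)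
    (c : (Σ l, (K l →+* L)) → ℚ) (hc : ∀ x, c (xbar x) = - c x)
    (hrel : ∀ σ : L ≃ₐ[ℚ] L, ∑ x : Σ l, (K l →+* L),
      (c x : ℝ) * dev p (m x.1) (π x.1) (jp.comp (σ • x.2)) = 0) (hnz : ∃ x, c x ≠ 0)
    (w : I → ℚ) (hw : ∀ i, 0 < w i) : ¬ NoSmallCombination p m π w := by
  classical
  intro hcon
  have hne : ∀ l, Nonempty (K l →+* L) := fun l => by
    obtain ⟨φ, _⟩ := hj l (Classical.arbitrary _)
    exact ⟨φ⟩
  obtain ⟨x0, b, hb1, hb2, hb3, hb4⟩ := core (L := L) hgen hdist c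
    (fun x => dev p (m x.1) (π x.1) (jp.comp x.2)) hc (fun x => hodd x.1 (jp.comp x.2)) hrel hnz
    w hw
  let T : Finset (Σ l, (K l →+* L)) := Finset.univ.filter fun x =>
    mp π x0.2 x ≠ X - C (π x0.1) ∧
      mp π x0.2 x ≠ X - C (IsCMField.complexConj (K x0.1) (π x0.1))
  have hT : ∀ x, x ∈ T ↔ mp π x0.2 x ≠ X - C (π x0.1) ∧
      mp π x0.2 x ≠ X - C (IsCMField.complexConj (K x0.1) (π x0.1)) := fun x => by simp [T]
  have hother : ∀ x ∈ T, IsOther π x0.1 x.1 (mp π x0.2 x) := by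
    intro x hx
    rw [hT] at hx
    letI := x0.2.toAlgebra
    haveI : IsScalarTower ℚ (K x0.1) L := tower x0.1 x0.2
    have hint : IsIntegral (K x0.1) (val π x) :=
      (Algebra.IsIntegral.isIntegral (R := ℚ) (val π x)).tower_top
    refine ⟨minpoly.monic hint, minpoly.irreducible hint, ?_, hx.1, hx.2⟩
    have h1 := minpoly.dvd_map_of_isScalarTower ℚ (K x0.1) (val π x)
    rwa [minpoly_val] at h1
  refine hcon x0.1 ⟨T.image fun x => (x.1, mp π x0.2 x), fun s => b s.2, ?_, ?_⟩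
  · intro s hs
    obtain ⟨x, hx, rfl⟩ := Finset.mem_image.1 hs
    exact ⟨hother x hx, hb1 x⟩
  · funext τ
    obtain ⟨ψ, rfl⟩ := Pool.Agent.H977R3.WN.factor j (hj x0.1) jp τ
    obtain ⟨σ, rfl⟩ := MulAction.exists_smul_eq (L ≃ₐ[ℚ] L) x0.2 ψ
    have h1 := hb4 σ
    have h2 : dev p (m x0.1) (π x0.1) (jp.comp (σ • x0.2)) =
        ∑ x : Σ l, (K l →+* L), (b (mp π x0.2 x) : ℝ) *
          dev p (m x.1) (π x.1) (jp.comp (σ • x.2)) := h1
    rw [h2, Finset.sum_apply]
    have h3 : ∑ x : Σ l, (K l →+* L), (b (mp π x0.2 x) : ℝ) *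
        dev p (m x.1) (π x.1) (jp.comp (σ • x.2)) =
        ∑ x ∈ T, (b (mp π x0.2 x) : ℝ) * dev p (m x.1) (π x.1) (jp.comp (σ • x.2)) := by
      refine (Finset.sum_subset (Finset.subset_univ T) fun x _ hx => ?_).symm
      rw [hT, not_and_or, not_not, not_not] at hx
      rcases hx with hx | hx
      · rw [hx, hb2, Rat.cast_zero, zero_mul]
      · rw [hx, hb3, Rat.cast_zero, zero_mul]
    rw [h3, ← Finset.sum_fiberwise_of_maps_to (g := fun x => (x.1, mp π x0.2 x))
      (t := T.image fun x => (x.1, mp π x0.2 x)) (fun x hx => Finset.mem_image_of_mem _ hx)]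
    refine Finset.sum_congr rfl fun s hs => ?_
    obtain ⟨y, hy, rfl⟩ := Finset.mem_image.1 hs
    have hy' := hother y hy
    rw [Pi.smul_apply, Rat.smul_def,
      slope_eq hgen hdist hne x0.2 hy'.monic hy'.irr hy'.dvd hπ0 jp σ, Finset.mul_sum]
    refine Finset.sum_congr ?_ fun x hx => ?_
    · ext x
      simp only [Finset.mem_filter, Finset.mem_univ, true_and, Prod.mk.injEq]
      constructor
      · exact fun h => h.2.2
      · intro h
        refine ⟨?_, fst_eq hdist x0.2 hy'.dvd h, h⟩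
        rw [hT, h]
        exact (hT y).1 hy
    · have h4 : mp π x0.2 x = mp π x0.2 y := by
        simp only [Finset.mem_filter, Finset.mem_univ, true_and] at hx
        exact hx
      rw [h4]

end Run7.h31.ES
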