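import Mathlib
import Pool.Agent.Run7.h31.ES.Slope
import Pool.Agent.H485R3.Exact.ExoticMain

/-!
# Roots of unity from relations between slope functions (helper31)
-/

set_option autoImplicit false
set_option linter.unusedSectionVars false
set_option linter.style.haveILetI false

namespace Run7.h31.ES

open NumberField Module Polynomial IntermediateField Pool.Agent.H204R3.CM Pool.Agent.Run7.h142.TF
  Pool.Agent.H485R3

variable {I : Type} [Fintype I] {K : I → Type} [∀ i, Field (K i)] [∀ i, NumberField (K i)]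
  [∀ i, IsCMField (K i)] {π : ∀ i, K i} {p : ℕ} [hp : Fact p.Prime] {m : I → ℕ}

theorem weil_ne_zero {p : ℕ} [Fact p.Prime] {E : Type} [Field E] [NumberField E] {π : E} {m : ℕ}
    (hweil : ∀ φ : E →+* ℂ, ‖φ π‖ ^ 2 = (p : ℝ) ^ m) : π ≠ 0 := by
  intro h0
  have h1 := hweil (Classical.arbitrary _)
  rw [h0, map_zero, norm_zero, zero_pow two_ne_zero] at h1
  exact (pow_pos (by exact_mod_cast (Fact.out : p.Prime).pos) _).ne h1

theorem logb_zpow' (b x : ℝ) (n : ℤ) : Real.logb b (x ^ n) = n * Real.logb b x := by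
  unfold Real.logb
  rw [Real.log_zpow, mul_div_assoc]

theorem norm_p_inv (p : ℕ) [Fact p.Prime] : ‖(p : PadicAlgCl p)‖ = (p : ℝ)⁻¹ := by
  have h4 : (p : PadicAlgCl p) = algebraMap ℚ_[p] (PadicAlgCl p) (p : ℚ_[p]) := by simp
  rw [h4, PadicAlgCl.norm_extends, Padic.norm_p]

theorem dev_odd (hweil : ∀ i, ∀ φ : K i →+* ℂ, ‖φ (π i)‖ ^ 2 = (p : ℝ) ^ m i) (i : I)
    (τ : K i →+* PadicAlgCl p) : dev p (m i) (π i) (cbar τ) = - dev p (m i) (π i) τ := by
  have hp1 : (1 : ℝ) < p := by exact_mod_cast (Fact.out : p.Prime).one_lt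
  have h0 : π i ≠ 0 := weil_ne_zero (hweil i)
  have h1 : ‖τ (π i)‖ * ‖τ (IsCMField.complexConj (K i) (π i))‖ = ((p : ℝ)⁻¹) ^ m i := by
    rw [← norm_mul, ← map_mul, mul_conj_eq p (π i) (m i) (hweil i), map_pow, map_natCast,
      norm_pow, norm_p_inv]
  have h2 := congrArg (Real.logb p) h1
  have h3 : IsCMField.complexConj (K i) (π i) ≠ 0 := by
    rw [Ne, map_eq_zero_iff _ (IsCMField.complexConj (K i)).injective]
    exact h0
  rw [Real.logb_mul, Real.logb_pow, Real.logb_inv, Real.logb_self_eq_one hp1] at h2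
  · unfold dev
    change 2 * (-Real.logb p ‖τ (IsCMField.complexConj (K i) (π i))‖) - (m i : ℝ) =
      -(2 * (-Real.logb p ‖τ (π i)‖) - (m i : ℝ))
    linarith
  · rw [norm_ne_zero_iff]
    exact (_root_.map_ne_zero τ).2 h0
  · rw [norm_ne_zero_iff]
    exact (_root_.map_ne_zero τ).2 h3

variable {L : Type} [Field L] [NumberField L] [IsGalois ℚ L]

/-- The unit part of a conjugate. -/
noncomputable def unit (p : ℕ) (m : I → ℕ) (π : ∀ i, K i) (x : Σ l, (K l →+* L)) : L :=
  val π x ^ 2 / (p : L) ^ m x.1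

theorem unit_ne_zero (hweil : ∀ i, ∀ φ : K i →+* ℂ, ‖φ (π i)‖ ^ 2 = (p : ℝ) ^ m i)
    (x : Σ l, (K l →+* L)) : unit p m π x ≠ 0 := by
  have h0 : π x.1 ≠ 0 := weil_ne_zero (hweil x.1)
  refine div_ne_zero (pow_ne_zero _ ((_root_.map_ne_zero x.2).2 h0)) (pow_ne_zero _ ?_)
  exact Nat.cast_ne_zero.2 hp.out.ne_zero

/-- A product of powers of the unit parts with vanishing slopes is a root of unity. -/
theorem unit_torsion (hint : ∀ i, IsIntegral ℤ (π i))
    (hweil : ∀ i, ∀ φ : K i →+* ℂ, ‖φ (π i)‖ ^ 2 = (p : ℝ) ^ m i)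
    (jp : L →+* PadicAlgCl p) (n : (Σ l, (K l →+* L)) → ℤ)
    (h : ∀ σ : L ≃ₐ[ℚ] L, ∑ x : Σ l, (K l →+* L),
      (n x : ℝ) * dev p (m x.1) (π x.1) (jp.comp (σ • x.2)) = 0) :
    ∃ r : ℕ, 0 < r ∧ (∏ x : Σ l, (K l →+* L), unit p m π x ^ n x) ^ r = 1 := by
  have hp1 : (1 : ℝ) < p := by exact_mod_cast (Fact.out : p.Prime).one_lt
  have hp0 : (0 : ℝ) < p := by linarith
  have hu0 : ∀ x : Σ l, (K l →+* L), unit p m π x ≠ 0 := fun x => unit_ne_zero hweil x
  apply Pool.Agent.H485R3.Exact.root_of_unity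
  · intro l _ e
    by_cases hl : l = p
    · subst hl
      let ealg : L →ₐ[ℚ] PadicAlgCl l := (jp : L →+* PadicAlgCl l).toRatAlgHom
      obtain ⟨g, hg⟩ := Pool.Agent.H485R3.exists_gal ealg e
      have hg' : ∀ x, e x = jp (g x) := hg
      have h1 : ∀ x : Σ l, (K l →+* L), Real.logb l ‖jp (g (unit l m π x))‖ =
          - dev l (m x.1) (π x.1) (jp.comp (g • x.2)) := by
        intro x
        have h0 : π x.1 ≠ 0 := weil_ne_zero (hweil x.1)
        have hv : val π x ≠ 0 := (_root_.map_ne_zero x.2).2 h0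
        unfold unit
        rw [map_div₀, map_div₀, map_pow, map_pow, map_pow, map_pow, map_natCast, map_natCast,
          norm_div, norm_pow, norm_pow, norm_p_inv, Real.logb_div, Real.logb_pow, Real.logb_pow,
          Real.logb_inv, Real.logb_self_eq_one hp1]
        · unfold dev
          change _ = -(2 * (-Real.logb l ‖jp (g (val π x))‖) - (m x.1 : ℝ))
          push_cast
          ring
        · refine pow_ne_zero _ ?_
          rw [norm_ne_zero_iff]
          exact (_root_.map_ne_zero jp).2 ((_root_.map_ne_zero g).2 hv)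
        · exact pow_ne_zero _ (inv_ne_zero hp0.ne')
      have h2 : Real.logb l ‖jp (g (∏ x : Σ l, (K l →+* L), unit l m π x ^ n x))‖ = 0 := by
        rw [map_prod, map_prod, norm_prod, Real.logb_prod]
        · rw [← neg_eq_zero, ← Finset.sum_neg_distrib, ← h g]
          refine Finset.sum_congr rfl fun x _ => ?_
          rw [map_zpow₀, map_zpow₀, norm_zpow, logb_zpow', h1 x]
          ring
        · intro x _
          rw [norm_ne_zero_iff]
          exact (_root_.map_ne_zero jp).2 ((_root_.map_ne_zero g).2 (zpow_ne_zero _ (hu0 x)))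
      rw [hg']
      have h3 : 0 < ‖jp (g (∏ x : Σ l, (K l →+* L), unit l m π x ^ n x))‖ := by
        rw [norm_pos_iff]
        exact (_root_.map_ne_zero jp).2 ((_root_.map_ne_zero g).2
          (Finset.prod_ne_zero_iff.2 fun x _ => zpow_ne_zero _ (hu0 x)))
      have h4 := Real.eq_one_of_pos_of_logb_eq_zero hp1 h3 h2
      exact h4.le
    · rw [map_prod, norm_prod]
      refine (Finset.prod_eq_one fun x _ => ?_).le
      rw [map_zpow₀, norm_zpow]
      have h1 : ‖e (unit p m π x)‖ = 1 := by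
        unfold unit
        rw [map_div₀, map_pow, map_pow, map_natCast, norm_div, norm_pow, norm_pow]
        have h2 : ‖e (val π x)‖ = 1 :=
          Pool.Agent.H485R3.Exact.norm_eq_one_of_ne p (m x.1) (π x.1) (hint x.1) (hweil x.1) l hl
            ((e : L →+* PadicAlgCl l).comp x.2)
        have h3 : ‖(p : PadicAlgCl l)‖ = 1 := by
          have h4 : (p : PadicAlgCl l) = algebraMap ℚ_[l] (PadicAlgCl l) (p : ℚ_[l]) := by simp
          rw [h4, PadicAlgCl.norm_extends, Padic.norm_natCast_eq_one_iff]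
          exact (Nat.coprime_primes (Fact.out : l.Prime) (Fact.out : p.Prime)).2 hl
        rw [h2, h3]
        simp
      rw [h1, one_zpow]
  · intro φ
    rw [map_prod, norm_prod]
    refine Finset.prod_eq_one fun x _ => ?_
    rw [map_zpow₀, norm_zpow]
    have h1 : ‖φ (unit p m π x)‖ = 1 := by
      unfold unit
      rw [map_div₀, map_pow, map_pow, map_natCast, norm_div, norm_pow, norm_pow]
      have h2 : ‖φ (val π x)‖ ^ 2 = (p : ℝ) ^ m x.1 := hweil x.1 ((φ : L →+* ℂ).comp x.2)
      rw [h2, Complex.norm_natCast]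
      exact div_self (pow_ne_zero _ hp0.ne')
    rw [h1, one_zpow]

end Run7.h31.ES
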