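import Mathlib
import Pool.Agent.Run7.h31.ES.Unit

/-!
# Relations from linear dependences between slope functions (helper31)
-/

set_option autoImplicit false
set_option linter.unusedSectionVars false
set_option linter.style.haveILetI false

namespace Run7.h31.ES

open NumberField Module Polynomial IntermediateField Pool.Agent.H204R3.CM Pool.Agent.Run7.h142.TF

variable {I : Type} [Fintype I] {K : I → Type} [∀ i, Field (K i)] [∀ i, NumberField (K i)]
  [∀ i, IsCMField (K i)] {π : ∀ i, K i} {p : ℕ} [hp : Fact p.Prime] {m : I → ℕ}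
  {L : Type} [Field L] [NumberField L] [IsGalois ℚ L]

theorem mp_x0 {i : I} (φ : K i →+* L) : mp π φ ⟨i, φ⟩ = X - C (π i) := by
  letI := φ.toAlgebra
  exact minpoly.eq_X_sub_C L (π i)

theorem mp_xbar0 {i : I} (φ : K i →+* L) :
    mp π φ (xbar ⟨i, φ⟩) = X - C (IsCMField.complexConj (K i) (π i)) := by
  letI := φ.toAlgebra
  exact minpoly.eq_X_sub_C L (IsCMField.complexConj (K i) (π i))

/-- A linear dependence gives a nontrivial relation. -/
theorem exists_relation (hgen : ∀ i, ℚ⟮π i⟯ = ⊤)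
    (hdist : ∀ i l, minpoly ℚ (π i) = minpoly ℚ (π l) → i = l)
    (hne : ∀ l, Nonempty (K l →+* L)) (hπ0 : ∀ i, π i ≠ 0) (jp : L →+* PadicAlgCl p) (i : I)
    (hi : dev p (m i) (π i) ∈
      Submodule.span ℚ {D | ∃ l h, IsOther π i l h ∧ D = slope p (m l) h}) :
    ∃ n : (Σ l, (K l →+* L)) → ℤ, (∀ σ : L ≃ₐ[ℚ] L, ∑ x : Σ l, (K l →+* L),
      (n x : ℝ) * dev p (m x.1) (π x.1) (jp.comp (σ • x.2)) = 0) ∧ ∃ x, n x ≠ n (xbar x) := by
  classical
  let T := {s : I × (K i)[X] // IsOther π i s.1 s.2}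
  let v : T → (K i →+* PadicAlgCl p) → ℝ := fun s => slope p (m s.1.1) s.1.2
  have hset : {D | ∃ l h, IsOther π i l h ∧ D = slope p (m l) h} = Set.range v := by
    ext D
    constructor
    · rintro ⟨l, h, hh, rfl⟩
      exact ⟨⟨(l, h), hh⟩, rfl⟩
    · rintro ⟨s, rfl⟩
      exact ⟨s.1.1, s.1.2, s.2, rfl⟩
  rw [hset, Finsupp.mem_span_range_iff_exists_finsupp] at hi
  obtain ⟨c, hc⟩ := hi
  let N : ℕ := ∏ s ∈ c.support, (c s).den
  have hN0 : N ≠ 0 := Finset.prod_ne_zero_iff.2 fun s _ => (c s).den_nz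
  have hz : ∀ s, ∃ z : ℤ, s ∈ c.support → (z : ℚ) = N * c s := by
    intro s
    by_cases hs : s ∈ c.support
    · obtain ⟨t, ht⟩ := Finset.dvd_prod_of_mem (fun s => (c s).den) hs
      refine ⟨(c s).num * t, fun _ => ?_⟩
      have h1 : N = (c s).den * t := ht
      rw [h1]
      push_cast
      have h2 := Rat.mul_den_eq_num (c s)
      rw [← h2]
      ring
    · exact ⟨0, fun h => absurd h hs⟩
  choose z hz using hz
  obtain ⟨φ0⟩ := hne i
  let n : (Σ l, (K l →+* L)) → ℤ := fun x => (if x = ⟨i, φ0⟩ then (N : ℤ) else 0) -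
    ∑ s ∈ c.support, if mp π φ0 x = s.1.2 then z s else 0
  refine ⟨n, fun σ => ?_, ⟨i, φ0⟩, ?_⟩
  · let e : (Σ l, (K l →+* L)) → ℝ := fun x => dev p (m x.1) (π x.1) (jp.comp (σ • x.2))
    have h1 : ∀ x, (n x : ℝ) * e x = (if x = ⟨i, φ0⟩ then (N : ℝ) * e x else 0) -
        ∑ s ∈ c.support, (z s : ℝ) * (if mp π φ0 x = s.1.2 then e x else 0) := by
      intro x
      simp only [n]
      push_cast
      rw [sub_mul, Finset.sum_mul]
      congr 1
      · split_ifs
        · rfl
        · rw [zero_mul]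
      · refine Finset.sum_congr rfl fun s _ => ?_
        split_ifs
        · rfl
        · rw [zero_mul, mul_zero]
    change ∑ x, (n x : ℝ) * e x = 0
    rw [Finset.sum_congr rfl fun x _ => h1 x, Finset.sum_sub_distrib, Finset.sum_comm,
      Finset.sum_ite_eq' Finset.univ, if_pos (Finset.mem_univ _)]
    have h2 : ∀ s ∈ c.support, ∑ x : Σ l, (K l →+* L),
        (z s : ℝ) * (if mp π φ0 x = s.1.2 then e x else 0) =
        (N : ℝ) * ((c s : ℝ) * v s (jp.comp (σ • φ0))) := by
      intro s hs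
      rw [← Finset.mul_sum, ← Finset.sum_filter]
      have h3 := slope_eq (m := m) hgen hdist hne φ0 s.2.monic s.2.irr s.2.dvd hπ0 jp σ
      have h4 : ((z s : ℚ) : ℝ) = ((N * c s : ℚ) : ℝ) := congrArg _ (hz s hs)
      push_cast at h4
      simp only [v]
      rw [h3, h4]
      ring
    rw [Finset.sum_congr rfl h2, ← Finset.mul_sum, ← mul_sub]
    have h5 := congrFun hc (jp.comp (σ • φ0))
    rw [Finsupp.sum, Finset.sum_apply] at h5
    have h6 : e ⟨i, φ0⟩ = ∑ s ∈ c.support, (c s : ℝ) * v s (jp.comp (σ • φ0)) := by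
      refine Eq.trans h5.symm (Finset.sum_congr rfl fun s _ => ?_)
      rw [Pi.smul_apply, Rat.smul_def]
    rw [h6, sub_self, mul_zero]
  · have h1 : n ⟨i, φ0⟩ = N := by
      simp only [n]
      rw [if_pos trivial, Finset.sum_eq_zero, sub_zero]
      intro s _
      rw [mp_x0, if_neg (fun h => s.2.ne h.symm)]
    have h2 : n (xbar ⟨i, φ0⟩) = 0 := by
      simp only [n]
      rw [if_neg (xbar_ne _), Finset.sum_eq_zero, sub_zero]
      intro s _
      rw [mp_xbar0, if_neg (fun h => s.2.ne_conj h.symm)]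
    rw [h1, h2]
    exact_mod_cast hN0

end Run7.h31.ES
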