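import Mathlib
import Pool.Agent.Run7.h31.ES.Conv
import Pool.Agent.Y137.MV.Defs

/-!
# The exact slope criterion for multiplicative relations (helper31)
-/

set_option autoImplicit false
set_option linter.unusedSectionVars false
set_option linter.style.haveILetI false

namespace Run7.h31.ES

open NumberField Module Polynomial IntermediateField Pool.Agent.H204R3.CM Pool.Agent.Run7.h142.TF
  Pool.Agent.Y137.MV

variable {I : Type} [Fintype I] {K : I → Type} [∀ i, Field (K i)] [∀ i, NumberField (K i)]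
  [∀ i, IsCMField (K i)] {π : ∀ i, K i} {p : ℕ} [hp : Fact p.Prime] {m : I → ℕ}

/-- All multiplicative relations (up to the trivial ones with powers of `p`) between the conjugates
of the Weil numbers `π i` of weights `m i` are consequences of `π * conj π = p ^ m`. -/
def Balanced (p : ℕ) (m : I → ℕ) (π : ∀ i, K i) : Prop :=
  ∀ n : (Σ i, (K i →+* ℂ)) → ℤ,
    (∏ x, (x.2 (π x.1)) ^ n x) ^ 2 = ∏ x : (Σ i, (K i →+* ℂ)), ((p : ℂ) ^ m x.1) ^ n x →
    ∀ i (φ : K i →+* ℂ), n ⟨i, φ⟩ = n ⟨i, ComplexEmbedding.conjugate φ⟩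

section

variable {L : Type} [Field L] [NumberField L] (j : L →+* ℂ)
  (hj : ∀ i, ∀ ψ : K i →+* ℂ, ∃ φ : K i →+* L, j.comp φ = ψ)

/-- Embeddings into `L` and into the complex numbers. -/
noncomputable def embs : (Σ i, (K i →+* L)) ≃ (Σ i, (K i →+* ℂ)) :=
  Equiv.sigmaCongrRight fun i => embEquiv j (hj i)

theorem embs_apply (x : Σ i, (K i →+* L)) : embs j hj x = ⟨x.1, j.comp x.2⟩ := rfl

theorem embs_xbar (x : Σ i, (K i →+* L)) :
    embs j hj (xbar x) = ⟨x.1, ComplexEmbedding.conjugate (j.comp x.2)⟩ := by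
  rw [embs_apply]
  change (⟨x.1, j.comp (cbar x.2)⟩ : Σ i, (K i →+* ℂ)) = _
  rw [comp_cbar]

end

theorem balanced_of_noSmall (hgen : ∀ i, ℚ⟮π i⟯ = ⊤)
    (hdist : ∀ i l, minpoly ℚ (π i) = minpoly ℚ (π l) → i = l)
    (hweil : ∀ i, ∀ φ : K i →+* ℂ, ‖φ (π i)‖ ^ 2 = (p : ℝ) ^ m i) (w : I → ℚ)
    (hw : ∀ i, 0 < w i) (h : NoSmallCombination p m π w) : Balanced p m π := by
  classical
  intro n hn
  by_contra hcon
  push Not at hcon
  obtain ⟨i, φ, hne⟩ := hcon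
  obtain ⟨L, _, _, j, hj⟩ := exists_galois K
  let jp : L →+* PadicAlgCl p := ((IsAlgClosed.lift : L →ₐ[ℚ] PadicAlgCl p) : L →+* PadicAlgCl p)
  have hp1 : (1 : ℝ) < p := by exact_mod_cast (Fact.out : p.Prime).one_lt
  have hπ0 : ∀ i, π i ≠ 0 := fun i => weil_ne_zero (hweil i)
  have hp0 : (p : L) ≠ 0 := Nat.cast_ne_zero.2 hp.out.ne_zero
  let n' : (Σ i, (K i →+* L)) → ℤ := fun x => n (embs j hj x)
  have hv0 : ∀ x : Σ i, (K i →+* L), val π x ≠ 0 := fun x =>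
    (_root_.map_ne_zero x.2).2 (hπ0 x.1)
  -- the relation in `L`
  have hL : (∏ x : Σ i, (K i →+* L), val π x ^ n' x) ^ 2 =
      ∏ x : Σ i, (K i →+* L), ((p : L) ^ m x.1) ^ n' x := by
    apply j.injective
    rw [map_pow, map_prod, map_prod]
    have h1 : ∏ x : Σ i, (K i →+* L), j (val π x ^ n' x) =
        ∏ x : Σ i, (K i →+* ℂ), (x.2 (π x.1)) ^ n x := by
      refine Fintype.prod_equiv (embs j hj) _ _ fun x => ?_
      rw [map_zpow₀]
      rfl
    have h2 : ∏ x : Σ i, (K i →+* L), j (((p : L) ^ m x.1) ^ n' x) =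
        ∏ x : Σ i, (K i →+* ℂ), ((p : ℂ) ^ m x.1) ^ n x := by
      refine Fintype.prod_equiv (embs j hj) _ _ fun x => ?_
      rw [map_zpow₀, map_pow, map_natCast]
      rfl
    rw [h1, h2, hn]
  have hrel : ∀ σ : L ≃ₐ[ℚ] L, ∑ x : Σ i, (K i →+* L),
      (n' x : ℝ) * dev p (m x.1) (π x.1) (jp.comp (σ • x.2)) = 0 := by
    intro σ
    have h1 := congrArg (fun y => Real.logb p ‖jp (σ y)‖) hL
    simp only [map_pow, map_prod, norm_pow, norm_prod, Real.logb_pow] at h1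
    rw [Real.logb_prod, Real.logb_prod] at h1
    · have h2 : ∀ x : Σ i, (K i →+* L), Real.logb p ‖jp (σ (val π x ^ n' x))‖ =
          n' x * Real.logb p ‖jp (σ (val π x))‖ := by
        intro x
        rw [map_zpow₀, map_zpow₀, norm_zpow, logb_zpow']
      have h3 : ∀ x : Σ i, (K i →+* L), Real.logb p ‖jp (σ (((p : L) ^ m x.1) ^ n' x))‖ =
          -((n' x : ℝ) * (m x.1 : ℝ)) := by
        intro x
        rw [map_zpow₀, map_zpow₀, norm_zpow, logb_zpow', map_pow, map_pow, map_natCast, map_natCast,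
          norm_pow, norm_p_inv, Real.logb_pow, Real.logb_inv, Real.logb_self_eq_one hp1]
        ring
      rw [Finset.sum_congr rfl fun x _ => h2 x, Finset.sum_congr rfl fun x _ => h3 x,
        Finset.mul_sum, Finset.sum_neg_distrib] at h1
      have h4 : ∀ x : Σ i, (K i →+* L),
          (n' x : ℝ) * dev p (m x.1) (π x.1) (jp.comp (σ • x.2)) =
          -(((2 : ℕ) : ℝ) * ((n' x : ℝ) * Real.logb p ‖jp (σ (val π x))‖)) -
            (n' x : ℝ) * (m x.1 : ℝ) := by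
        intro x
        change (n' x : ℝ) * (2 * (-Real.logb p ‖jp (σ (val π x))‖) - ((m x.1 : ℕ) : ℝ)) = _
        push_cast
        ring
      rw [Finset.sum_congr rfl fun x _ => h4 x, Finset.sum_sub_distrib, Finset.sum_neg_distrib,
        h1]
      ring
    · intro x _
      rw [norm_ne_zero_iff]
      exact (_root_.map_ne_zero jp).2 ((_root_.map_ne_zero σ).2 (zpow_ne_zero _
        (pow_ne_zero _ hp0)))
    · intro x _
      rw [norm_ne_zero_iff]
      exact (_root_.map_ne_zero jp).2 ((_root_.map_ne_zero σ).2 (zpow_ne_zero _ (hv0 x)))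
  have hbb : ∀ x : Σ i, (K i →+* L), xbar (xbar x) = x := by
    rintro ⟨i, φ⟩
    change (⟨i, cbar (cbar φ)⟩ : Σ i, (K i →+* L)) = _
    rw [cbar_cbar]
  refine not_noSmall hgen hdist j hj hπ0 jp (dev_odd hweil)
    (fun x => (n' x : ℚ) - n' (xbar x)) (fun x => ?_) (fun σ => ?_) ?_ w hw h
  · rw [hbb]
    ring
  · have h1 : ∑ x : Σ i, (K i →+* L),
        (n' (xbar x) : ℝ) * dev p (m x.1) (π x.1) (jp.comp (σ • x.2)) =
        ∑ x : Σ i, (K i →+* L), -((n' x : ℝ) * dev p (m x.1) (π x.1) (jp.comp (σ • x.2))) := by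
      refine Finset.sum_nbij' xbar xbar (fun _ _ => Finset.mem_univ _)
        (fun _ _ => Finset.mem_univ _) (fun y _ => hbb y) (fun y _ => hbb y) (fun y _ => ?_)
      change _ = -((n' (xbar y) : ℝ) * dev p (m y.1) (π y.1) (cbar (jp.comp (σ • y.2))))
      rw [dev_odd hweil]
      ring
    have h2 : ∀ x : Σ i, (K i →+* L),
        (((n' x : ℚ) - n' (xbar x) : ℚ) : ℝ) * dev p (m x.1) (π x.1) (jp.comp (σ • x.2)) =
        (n' x : ℝ) * dev p (m x.1) (π x.1) (jp.comp (σ • x.2)) -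
          (n' (xbar x) : ℝ) * dev p (m x.1) (π x.1) (jp.comp (σ • x.2)) := by
      intro x
      push_cast
      ring
    rw [Finset.sum_congr rfl fun x _ => h2 x, Finset.sum_sub_distrib, h1,
      Finset.sum_neg_distrib, hrel σ]
    ring
  · obtain ⟨ψ, rfl⟩ := hj i φ
    refine ⟨⟨i, ψ⟩, fun h0 => hne ?_⟩
    have h1 : n' ⟨i, ψ⟩ = n' (xbar ⟨i, ψ⟩) := by
      have h2 := sub_eq_zero.1 h0
      exact_mod_cast h2
    simp only [n', embs_xbar] at h1
    exact h1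

theorem independent_of_balanced (hgen : ∀ i, ℚ⟮π i⟯ = ⊤)
    (hdist : ∀ i l, minpoly ℚ (π i) = minpoly ℚ (π l) → i = l) (hint : ∀ i, IsIntegral ℤ (π i))
    (hweil : ∀ i, ∀ φ : K i →+* ℂ, ‖φ (π i)‖ ^ 2 = (p : ℝ) ^ m i) (h : Balanced p m π) :
    SlopesIndependent p m π := by
  classical
  intro i hi
  obtain ⟨L, _, _, j, hj⟩ := exists_galois K
  let jp : L →+* PadicAlgCl p := ((IsAlgClosed.lift : L →ₐ[ℚ] PadicAlgCl p) : L →+* PadicAlgCl p)
  have hπ0 : ∀ i, π i ≠ 0 := fun i => weil_ne_zero (hweil i)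
  have hp0 : (p : L) ≠ 0 := Nat.cast_ne_zero.2 hp.out.ne_zero
  have hne : ∀ l, Nonempty (K l →+* L) := fun l => by
    obtain ⟨φ, _⟩ := hj l (Classical.arbitrary _)
    exact ⟨φ⟩
  obtain ⟨n, hn, x0, hx0⟩ := exists_relation (m := m) hgen hdist hne hπ0 jp i hi
  obtain ⟨r, hr, hr1⟩ := unit_torsion hint hweil jp n hn
  have h1 : (∏ x : Σ i, (K i →+* L), val π x ^ ((r : ℤ) * n x)) ^ 2 =
      ∏ x : Σ i, (K i →+* L), ((p : L) ^ m x.1) ^ ((r : ℤ) * n x) := by
    have h2 : ∀ x : Σ i, (K i →+* L), (unit p m π x ^ n x) ^ r =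
        (val π x ^ ((r : ℤ) * n x)) ^ 2 / ((p : L) ^ m x.1) ^ ((r : ℤ) * n x) := by
      intro x
      unfold unit
      rw [← zpow_natCast, ← zpow_mul, div_zpow, mul_comm (n x) (r : ℤ), ← zpow_natCast (val π x) 2,
        ← zpow_mul, ← zpow_natCast (val π x ^ ((r : ℤ) * n x)) 2, ← zpow_mul,
        mul_comm ((r : ℤ) * n x) ((2 : ℕ) : ℤ)]
    rw [← Finset.prod_pow, Finset.prod_congr rfl fun x _ => h2 x, Finset.prod_div_distrib,
      div_eq_one_iff_eq (Finset.prod_ne_zero_iff.2 fun x _ =>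
        zpow_ne_zero _ (pow_ne_zero _ hp0)), Finset.prod_pow] at hr1
    exact hr1
  have h2 : (∏ x : Σ i, (K i →+* ℂ), (x.2 (π x.1)) ^ ((r : ℤ) * n ((embs j hj).symm x))) ^ 2 =
      ∏ x : Σ i, (K i →+* ℂ), ((p : ℂ) ^ m x.1) ^ ((r : ℤ) * n ((embs j hj).symm x)) := by
    have h3 := congrArg j h1
    rw [map_pow, map_prod, map_prod] at h3
    refine Eq.trans ?_ (h3.trans ?_)
    · congr 1
      refine (Fintype.prod_equiv (embs j hj) _ _ fun x => ?_).symm
      rw [map_zpow₀, Equiv.symm_apply_apply]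
      rfl
    · refine Fintype.prod_equiv (embs j hj) _ _ fun x => ?_
      rw [map_zpow₀, map_pow, map_natCast, Equiv.symm_apply_apply]
      rfl
  have h3 := h _ h2 x0.1 (j.comp x0.2)
  have h4 : (⟨x0.1, j.comp x0.2⟩ : Σ i, (K i →+* ℂ)) = embs j hj x0 := rfl
  rw [h4, ← embs_xbar j hj x0, Equiv.symm_apply_apply, Equiv.symm_apply_apply] at h3
  exact hx0 (mul_left_cancel₀ (by exact_mod_cast hr.ne') h3)

/-- The exact slope criterion. -/
theorem balanced_iff (hgen : ∀ i, ℚ⟮π i⟯ = ⊤)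
    (hdist : ∀ i l, minpoly ℚ (π i) = minpoly ℚ (π l) → i = l) (hint : ∀ i, IsIntegral ℤ (π i))
    (hweil : ∀ i, ∀ φ : K i →+* ℂ, ‖φ (π i)‖ ^ 2 = (p : ℝ) ^ m i) :
    Balanced p m π ↔ SlopesIndependent p m π :=
  ⟨independent_of_balanced hgen hdist hint hweil, fun h =>
    balanced_of_noSmall hgen hdist hweil (fun _ => 1) (fun _ => one_pos)
      (noSmall_of_independent h)⟩

theorem noSmall_iff (hgen : ∀ i, ℚ⟮π i⟯ = ⊤)
    (hdist : ∀ i l, minpoly ℚ (π i) = minpoly ℚ (π l) → i = l) (hint : ∀ i, IsIntegral ℤ (π i))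
    (hweil : ∀ i, ∀ φ : K i →+* ℂ, ‖φ (π i)‖ ^ 2 = (p : ℝ) ^ m i) (w : I → ℚ)
    (hw : ∀ i, 0 < w i) : NoSmallCombination p m π w ↔ SlopesIndependent p m π :=
  ⟨fun h => independent_of_balanced hgen hdist hint hweil
    (balanced_of_noSmall hgen hdist hweil w hw h), noSmall_of_independent⟩

theorem prod_zpow' {X : Type} (s : Finset X) {a : ℂ} (ha : a ≠ 0) (n : X → ℤ) :
    ∏ x ∈ s, a ^ n x = a ^ ∑ x ∈ s, n x := by
  classical
  induction s using Finset.induction_on with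
  | empty => simp
  | insert y s hy ih => rw [Finset.prod_insert hy, Finset.sum_insert hy, zpow_add₀ ha, ih]

/-- For equal weights: maximal angle rank. -/
theorem angle_iff_balanced {a : ℕ}
    (hweil : ∀ i, ∀ φ : K i →+* ℂ, ‖φ (π i)‖ ^ 2 = (p : ℝ) ^ a) :
    MaximalAngleRank (p ^ a) π ↔ Balanced p (fun _ => a) π := by
  have hp0 : (p : ℂ) ≠ 0 := Nat.cast_ne_zero.2 hp.out.ne_zero
  constructor
  · intro h n hn i φ
    have h1 : ∏ x : Σ i, (K i →+* ℂ), (x.2 (π x.1)) ^ (2 * n x) =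
        (((p ^ a : ℕ) : ℂ)) ^ (∑ x : Σ i, (K i →+* ℂ), n x) := by
      have h2 : ∏ x : Σ i, (K i →+* ℂ), (x.2 (π x.1)) ^ (2 * n x) =
          (∏ x : Σ i, (K i →+* ℂ), (x.2 (π x.1)) ^ n x) ^ 2 := by
        rw [← Finset.prod_pow]
        refine Finset.prod_congr rfl fun x _ => ?_
        rw [← zpow_natCast (_ ^ n x) 2, ← zpow_mul, mul_comm (2 : ℤ)]
        rfl
      rw [h2, hn]
      push_cast
      rw [prod_zpow' _ (pow_ne_zero a hp0)]
    have h3 := h _ (fun x => 2 * n x) h1 i φ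
    omega
  · intro h r n hn i φ
    refine h n ?_ i φ
    have h1 : ‖∏ x : Σ i, (K i →+* ℂ), (x.2 (π x.1)) ^ n x‖ ^ 2 =
        ∏ x : Σ i, (K i →+* ℂ), ((p : ℝ) ^ a) ^ n x := by
      rw [norm_prod, ← Finset.prod_pow]
      refine Finset.prod_congr rfl fun x _ => ?_
      rw [norm_zpow, ← zpow_natCast (_ ^ n x) 2, ← zpow_mul, mul_comm (n x), zpow_mul,
        zpow_natCast, hweil]
    rw [hn] at h1 ⊢
    rw [norm_zpow, Complex.norm_natCast] at h1
    have h2 := congrArg (fun t : ℝ => (t : ℂ)) h1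
    push_cast at h2 ⊢
    exact h2

end Run7.h31.ES
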