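import Mathlib
import Pool.Agent.Run7.h31.ES.Bal

/-!
# Factors with real constant coefficients do not matter (helper31)
-/

set_option autoImplicit false
set_option linter.unusedSectionVars false
set_option linter.style.haveILetI false

namespace Run7.h31.ES

open NumberField Module Polynomial IntermediateField Pool.Agent.H204R3.CM Pool.Agent.Run7.h142.TF
  Pool.Agent.H485R3

variable {I : Type} {K : I → Type} [∀ i, Field (K i)] [∀ i, NumberField (K i)]
  [∀ i, IsCMField (K i)] {π : ∀ i, K i} {p : ℕ} [hp : Fact p.Prime] {m : I → ℕ}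

/-- The complex absolute values of the constant coefficients of factors. -/
theorem norm_coeff_zero {E F : Type} [Field E] [NumberField E] [Field F] [NumberField F] {a : E}
    {w : ℕ} (hweil : ∀ φ : E →+* ℂ, ‖φ a‖ ^ 2 = (p : ℝ) ^ w) {h : F[X]} (hm : h.Monic)
    (hdvd : h ∣ (minpoly ℚ a).map (algebraMap ℚ F)) (φ : F →+* ℂ) :
    ‖φ (h.coeff 0)‖ ^ 2 = (p : ℝ) ^ (w * h.natDegree) := by
  have h0 : (minpoly ℚ a).Monic := minpoly.monic (Algebra.IsIntegral.isIntegral a)
  have hs : (h.map φ).Splits := IsAlgClosed.splits _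
  have h1 : φ (h.coeff 0) = (-1) ^ (h.map φ).natDegree * (h.map φ).roots.prod := by
    rw [← hs.coeff_zero_eq_prod_roots_of_monic (hm.map φ), coeff_map]
  have h2 : ∀ z ∈ (h.map φ).roots, ‖z‖ ^ 2 = (p : ℝ) ^ w := by
    intro z hz
    have h3 : (h.map φ).eval z = 0 := (mem_roots'.1 hz).2
    have h4 : aeval z (minpoly ℚ a) = 0 := by
      obtain ⟨g, hg⟩ := hdvd
      have h5 : ((minpoly ℚ a).map (algebraMap ℚ F)).map φ = h.map φ * g.map φ := by
        rw [hg, Polynomial.map_mul]
      rw [Polynomial.map_map] at h5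
      have h6 : (φ.comp (algebraMap ℚ F)) = algebraMap ℚ ℂ := RingHom.ext_rat _ _
      rw [h6] at h5
      have h7 : eval z ((minpoly ℚ a).map (algebraMap ℚ ℂ)) = 0 := by
        rw [h5, eval_mul, h3, zero_mul]
      rwa [eval_map_algebraMap] at h7
    obtain ⟨ψ, rfl⟩ : ∃ ψ : E →+* ℂ, ψ a = z := by
      have h5 := NumberField.Embeddings.range_eval_eq_rootSet_minpoly E ℂ a
      have h6 : z ∈ (minpoly ℚ a).rootSet ℂ := mem_rootSet.2 ⟨h0.ne_zero, h4⟩
      rw [← h5] at h6
      exact h6
    exact hweil ψ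
  rw [h1, norm_mul, norm_pow, norm_neg, norm_one, one_pow, one_mul]
  have h3 : ∀ s : Multiset ℂ, (∀ z ∈ s, ‖z‖ ^ 2 = (p : ℝ) ^ w) →
      ‖s.prod‖ ^ 2 = (p : ℝ) ^ (w * Multiset.card s) := by
    intro s
    induction s using Multiset.induction_on with
    | empty => intro _; simp
    | cons z s ih =>
      intro hz
      rw [Multiset.prod_cons, norm_mul, mul_pow, hz z (Multiset.mem_cons_self z s),
        ih fun y hy => hz y (Multiset.mem_cons_of_mem hy), Multiset.card_cons, ← pow_add]
      congr 1
      ring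
  rw [h3 _ h2]
  congr 2
  rw [← hs.natDegree_eq_card_roots, natDegree_map]

/-- Factors whose constant coefficient is real have slope function zero. -/
theorem slope_eq_zero {E F : Type} [Field E] [NumberField E] [Field F] [NumberField F]
    [IsCMField F] {a : E} {w : ℕ} (hweil : ∀ φ : E →+* ℂ, ‖φ a‖ ^ 2 = (p : ℝ) ^ w) {h : F[X]}
    (hm : h.Monic) (hdvd : h ∣ (minpoly ℚ a).map (algebraMap ℚ F))
    (hreal : IsCMField.complexConj F (h.coeff 0) = h.coeff 0) : slope p w h = 0 := by
  have hp1 : (1 : ℝ) < p := by exact_mod_cast (Fact.out : p.Prime).one_lt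
  have h1 := mul_conj_eq p (h.coeff 0) (w * h.natDegree)
    (norm_coeff_zero hweil hm hdvd)
  rw [hreal, ← pow_two] at h1
  funext τ
  have h2 := congrArg (fun y => Real.logb p ‖τ y‖) h1
  simp only [map_pow, map_natCast, norm_pow, Real.logb_pow, norm_p_inv, Real.logb_inv,
    Real.logb_self_eq_one hp1] at h2
  change 2 * (-Real.logb p ‖τ (h.coeff 0)‖) - ((w * h.natDegree : ℕ) : ℝ) = 0
  push_cast at h2 ⊢
  linarith

/-- If for `l ≠ i` all factors over `K i` of the minimal polynomial of `π l` have real constant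
coefficients, then the criterion for the family is the criterion for the single numbers. -/
theorem independent_iff_single
    (hweil : ∀ i, ∀ φ : K i →+* ℂ, ‖φ (π i)‖ ^ 2 = (p : ℝ) ^ m i)
    (hreal : ∀ i l, l ≠ i → ∀ h : (K i)[X], h.Monic → Irreducible h →
      h ∣ (minpoly ℚ (π l)).map (algebraMap ℚ (K i)) →
        IsCMField.complexConj (K i) (h.coeff 0) = h.coeff 0) :
    SlopesIndependent p m π ↔
      ∀ i, SlopesIndependent (I := Unit) (K := fun _ => K i) p (fun _ => m i) (fun _ => π i) := by
  have key : ∀ i, Submodule.span ℚ {D | ∃ l h, IsOther π i l h ∧ D = slope p (m l) h} =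
      Submodule.span ℚ {D | ∃ (l : Unit) (h : (K i)[X]),
        IsOther (I := Unit) (K := fun _ => K i) (fun _ => π i) () l h ∧ D = slope p (m i) h} := by
    intro i
    apply le_antisymm
    · refine Submodule.span_le.2 ?_
      rintro D ⟨l, h, hh, rfl⟩
      by_cases hl : l = i
      · subst hl
        exact Submodule.subset_span ⟨(), h, ⟨hh.monic, hh.irr, hh.dvd, hh.ne, hh.ne_conj⟩, rfl⟩
      · rw [slope_eq_zero (hweil l) hh.monic hh.dvd (hreal i l hl h hh.monic hh.irr hh.dvd)]
        exact Submodule.zero_mem _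
    · refine Submodule.span_mono ?_
      rintro D ⟨l, h, hh, rfl⟩
      exact ⟨i, h, ⟨hh.monic, hh.irr, hh.dvd, hh.ne, hh.ne_conj⟩, rfl⟩
  constructor
  · intro h i _
    have h1 := h i
    rw [key i] at h1
    exact h1
  · intro h i
    rw [key i]
    exact h i ()

/-- Irreducible polynomials over `ℚ` that remain irreducible have real constant coefficients. -/
theorem real_of_irreducible {E F : Type} [Field E] [NumberField E] [Field F] [NumberField F]
    [IsCMField F] {a : E} (hirr : Irreducible ((minpoly ℚ a).map (algebraMap ℚ F))) (h : F[X])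
    (hm : h.Monic) (hh : Irreducible h) (hdvd : h ∣ (minpoly ℚ a).map (algebraMap ℚ F)) :
    IsCMField.complexConj F (h.coeff 0) = h.coeff 0 := by
  have h1 : h = (minpoly ℚ a).map (algebraMap ℚ F) :=
    eq_of_monic_of_associated hm
      ((minpoly.monic (Algebra.IsIntegral.isIntegral a)).map _)
      (hh.associated_of_dvd hirr hdvd)
  rw [h1, coeff_map, eq_ratCast, map_ratCast]

end Run7.h31.ES
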