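import Mathlib
import Pool.Agent.Run7.h31.ES.Single
import Pool.Agent.TH170.FT.MT
import Pool.Agent.H204R3.GP.Neat
import Pool.Agent.Y137.MV.Criteria
import Pool.Agent.Y1.TS.Split

/-!
# The exact slope criterion: consequences (helper31)
-/

set_option autoImplicit false
set_option linter.unusedSectionVars false

namespace Run7.h31.ES

open NumberField Module Polynomial Pool.Agent.H204R3.CM Pool.Agent.H204R3.GP Pool.Agent.Y137.MV
  Pool.Agent.TH170 Pool.Agent.TH170.FT Pool.Agent.Y1.CT Pool.Agent.Y1.TS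

variable {p : ℕ} [Fact p.Prime] {a : ℕ} {I : Type} [Fintype I] {K : I → Type}
  [∀ i, Field (K i)] [∀ i, NumberField (K i)] [∀ i, IsCMField (K i)] {π : ∀ i, K i}

theorem angle_iff (h : IsWeilFamily p (fun _ => a) π) :
    MaximalAngleRank (p ^ a) π ↔ SlopesIndependent p (fun _ => a) π :=
  (angle_iff_balanced h.weil).trans (balanced_iff h.generates h.distinct h.integral h.weil)

theorem exactCriterion (h : IsWeilFamily p (fun _ => a) π) : ExactCriterion p a π := by
  refine ⟨angle_iff h, fun w hw => ⟨?_, fun hd => ?_⟩, fun hr => ?_⟩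
  · exact (noSmall_iff h.generates h.distinct h.integral h.weil w hw).symm
  · exact (noSmall_iff h.generates h.distinct h.integral h.weil w hw).1 (noSmall_of_dominates hw hd)
  · exact independent_iff_single h.weil hr

theorem mul_conj_of_family (h : IsWeilFamily p (fun _ => a) π) (i : I) :
    π i * IsCMField.complexConj (K i) (π i) = (p : K i) ^ a :=
  Pool.Agent.H485R3.mul_conj_eq p (π i) a (h.weil i)

theorem mumfordTate_of_slopes (ha : 0 < a) (h : IsWeilFamily p (fun _ => a) π)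
    (hs : SlopesIndependent p (fun _ => a) π)
    {ℓ : ℕ} [Fact ℓ.Prime] {W T V Γ : Type} [AddCommGroup W] [Module ℚ W]
    [AddCommGroup T] [Module ℂ T] [AddCommGroup V] [Module ℚ_[ℓ] V] [FiniteDimensional ℚ_[ℓ] V]
    [Group Γ] {per : W →+ T} {ω₀ : W →ₗ[ℚ] W →ₗ[ℚ] ℚ} {comp : W →+ V}
    {ρ : Representation ℚ_[ℓ] Γ V} {χ : Γ →* ℚ_[ℓ]} {ω : V →ₗ[ℚ_[ℓ]] V →ₗ[ℚ_[ℓ]] ℚ_[ℓ]}
    (hR : FT.IsRealization per ω₀ comp ρ χ ω) (hF : FT.HasFrobenius ρ χ p a π) :
    MumfordTateStrong per comp ρ χ := by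
  obtain ⟨L, _, _, j, hj⟩ := Pool.Agent.H204R3.CM.exists_galois K
  exact FT.mumfordTate ha h.generates (mul_conj_of_family h) j hj
    (neat_of_angle j ((angle_iff h).2 hs)) hR hF

theorem split_of_slopes (h : IsWeilFamily p (fun _ => a) π)
    (hs : SlopesIndependent p (fun _ => a) π) : TateClassesSplit (p := p) a K π :=
  split_of_angle h.generates (mul_conj_of_family h) ((angle_iff h).2 hs)

end Run7.h31.ES
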