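import Mathlib
import Pool.Agent.Run7.h31.ES.Main
import Pool.Agent.Run7.h142.TF.PoleDefs
import Pool.Agent.H868R3.PoleMain
import Pool.Agent.H194R3.Tate.Gen
import Pool.Agent.H485R3.DomMain

/-!
# The orders of the poles of zeta functions and independent slopes (helper31)
-/

set_option autoImplicit false
set_option linter.unusedSectionVars false

namespace Run7.h31.ES

open NumberField Module Pool.Agent.H204R3.CM Pool.Agent.Run7.h142.TF

variable {p : ℕ} [hp : Fact p.Prime] {I : Type} [Fintype I] {K : I → Type}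
  [∀ i, Field (K i)] [∀ i, NumberField (K i)] [∀ i, IsCMField (K i)] {π : ∀ i, K i}

theorem logb_q (m : ℕ) : - Real.logb p ‖(((p : ℚ) ^ m : ℚ) : PadicAlgCl p)‖ = m := by
  have hp1 : (1 : ℝ) < p := by exact_mod_cast (Fact.out : p.Prime).one_lt
  push_cast
  rw [norm_pow, norm_p_inv, Real.logb_pow, Real.logb_inv, Real.logb_self_eq_one hp1]
  ring

/-- Independent slopes give the hypothesis of the starting files. -/
theorem norel_of_independent {m : I → ℕ} (h : IsWeilFamily p m π) (hs : SlopesIndependent p m π) :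
    Pool.Agent.H194R3.Tate.NoRel p (fun i => (p : ℚ) ^ m i) π := by
  intro L _ _ j hj e c hc hrel
  by_contra hcon
  push Not at hcon
  obtain ⟨x, hx⟩ := hcon
  have hlp : Real.log p ≠ 0 :=
    (Real.log_pos (by exact_mod_cast (Fact.out : p.Prime).one_lt)).ne'
  refine not_noSmall h.generates h.distinct j hj (fun i => weil_ne_zero (h.weil i))
    (e : L →+* PadicAlgCl p) (dev_odd h.weil) (fun x => (c x : ℚ)) (fun x => ?_) (fun g => ?_)
    ⟨x, by exact_mod_cast hx⟩ (fun _ => 1) (fun _ => one_pos) (noSmall_of_independent hs)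
  · have h1 : c (xbar x) = - c x := hc x
    rw [h1]
    push_cast
    rfl
  · have h1 : ∀ x : Σ i, (K i →+* L), (c x : ℝ) *
        Pool.Agent.H194R3.Tate.slope p (fun i => (p : ℚ) ^ m i) π e (g • x) =
        - Real.log p * (((c x : ℚ) : ℝ) *
          dev p (m x.1) (π x.1) ((e : L →+* PadicAlgCl p).comp (g • x.2))) := by
      intro x
      have h2 : Pool.Agent.H194R3.Tate.slope p (fun i => (p : ℚ) ^ m i) π e (g • x) =
          Pool.Agent.H925R2.dev p ((p : ℚ) ^ m x.1) (e ((g • x.2) (π x.1))) := rfl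
      rw [h2, Pool.Agent.H485R3.dev_eq_val, logb_q]
      change (c x : ℝ) * (- Real.log p * (2 * (-Real.logb p ‖e ((g • x.2) (π x.1))‖) - (m x.1 : ℝ))) =
        - Real.log p * (((c x : ℚ) : ℝ) * (2 * (-Real.logb p ‖e ((g • x.2) (π x.1))‖) - (m x.1 : ℝ)))
      push_cast
      ring
    have h2 := hrel g
    rw [Finset.sum_congr rfl fun x _ => h1 x, ← Finset.mul_sum] at h2
    exact (mul_eq_zero.1 h2).resolve_left (neg_ne_zero.2 hlp)

variable {a : ℕ}

theorem poleOrders_of_independent (ha : 0 < a) (h : IsWeilFamily p (fun _ => a) π)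
    (hs : SlopesIndependent p (fun _ => a) π) : PoleOrders p a K π := by
  intro V _ _ _ F hF s hs' n
  have hq : (0 : ℚ) < (p : ℚ) ^ a := pow_pos (by exact_mod_cast (Fact.out : p.Prime).pos) a
  have hp1 : (1 : ℝ) < p := by exact_mod_cast (Fact.out : p.Prime).one_lt
  have hcast : (((p : ℚ) ^ a : ℚ) : ℂ) = (p : ℂ) ^ a := by
    push_cast
    rfl
  have hcast2 : (((p : ℝ) ^ a : ℝ) : ℂ) = (p : ℂ) ^ a := by
    push_cast
    rfl
  rw [← hcast2]
  refine Pool.Agent.H868R3.TwoOdd.zeta_order_ext ((p : ℝ) ^ a) (one_lt_pow₀ hp1 ha.ne') F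
    {μ : ℂ | ∃ i, ∃ σ : K i →+* ℂ, σ (π i) = μ} ?_ ?_ s hs' ?_ n
  · rintro _ ⟨i, σ, rfl⟩
    exact h.weil i σ
  · rw [← hF]
    congr 1
    ext v
    constructor
    · rintro ⟨μ, ⟨i, σ, rfl⟩, h⟩
      exact ⟨i, σ, h⟩
    · rintro ⟨i, σ, h⟩
      exact ⟨_, ⟨i, σ, rfl⟩, h⟩
  · intro n x hx hxF
    rw [hcast2] at hxF ⊢
    rw [← hcast] at hxF ⊢
    refine Pool.Agent.H194R3.Tate.ext_of_norel (K := K) p ((p : ℚ) ^ a) hq π
      h.generates (fun i φ => ?_) (fun hfin => ?_) F hF n s hs' x hx hxF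
    · rw [h.weil i φ]
      push_cast
      rfl
    · exact norel_of_independent h hs

end Run7.h31.ES
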