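import Mathlib
import Pool.Agent.Run7.h31.ES.Pole

/-!
# The converse: the orders of the poles determine the independence of the slopes (helper31)
-/

set_option autoImplicit false
set_option linter.unusedSectionVars false

namespace Run7.h31.ES

open NumberField Module Pool.Agent.H204R3.CM Pool.Agent.Run7.h142.TF
  Pool.Agent.H868R3.TwoOdd

section ext

variable {V : Type} [AddCommGroup V] [Module ℂ V] [FiniteDimensional ℂ V]

/-- The order of the zeta function in terms of the eigenspace. -/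
theorem zeta_order_eigen (q : ℝ) (hq : 1 < q) (F : V →ₗ[ℂ] V) (E : Set ℂ)
    (hE : ∀ μ ∈ E, ‖μ‖ ^ 2 = q)
    (hF : Submodule.span ℂ {v : V | ∃ μ : ℂ, μ ∈ E ∧ F v = μ • v} = ⊤) (n : ℕ) :
    meromorphicOrderAt (zeta q F) (n : ℂ) =
      ((- (finrank ℂ (Module.End.eigenspace (exteriorPower.map (2 * n) F) ((q : ℂ) ^ n)) : ℤ) : ℤ)
        : WithTop ℤ) := by
  classical
  have hzero : ∀ j, j ≠ 2 * n →
      finrank ℂ (Module.End.eigenspace (exteriorPower.map j F) ((q : ℂ) ^ n)) = 0 := by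
    intro j hj
    obtain ⟨ι, _, B, α, hB, hα⟩ := exists_extBasis F E hF j
    rw [finrank_eigenspace B _ α hB, Nat.card_eq_zero]
    left
    refine ⟨fun ⟨i, hi⟩ => hj ?_⟩
    obtain ⟨m, hm1, hm2⟩ := hα i
    have h1 : (‖α i‖ ^ 2 : ℝ) = q ^ j := by
      rw [hm2, norm_prod, ← Finset.prod_pow, Finset.prod_congr rfl (fun l _ => hE _ (hm1 l)),
        Finset.prod_const, Finset.card_univ, Fintype.card_fin]
    rw [hi, norm_pow, Complex.norm_real, Real.norm_of_nonneg (by linarith), ← pow_mul] at h1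
    have h2 : n * 2 = j := pow_right_injective₀ (by linarith : 0 < q) hq.ne' h1
    omega
  have hdet : ∀ j : ℕ, MeromorphicAt (fun s : ℂ =>
      (LinearMap.det (1 - (q : ℂ) ^ (-s) • exteriorPower.map j F)) ^ ((-1 : ℤ) ^ (j + 1))) (n : ℂ) ∧
      meromorphicOrderAt (fun s : ℂ =>
      (LinearMap.det (1 - (q : ℂ) ^ (-s) • exteriorPower.map j F)) ^ ((-1 : ℤ) ^ (j + 1))) (n : ℂ) =
      (((-1 : ℤ) ^ (j + 1) * finrank ℂ
        (Module.End.eigenspace (exteriorPower.map j F) ((q : ℂ) ^ n)) : ℤ) : WithTop ℤ) := by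
    intro j
    obtain ⟨ι, _, B, α, hB, hα⟩ := exists_extBasis F E hF j
    obtain ⟨h1, h2⟩ := order_det q hq n B _ α hB
    refine ⟨h1.fun_zpow _, ?_⟩
    rw [fun_meromorphicOrderAt_zpow h1, h2]
    rfl
  unfold zeta
  change meromorphicOrderAt (fun s : ℂ => ∏ j ∈ Finset.range (finrank ℂ V + 1),
    (LinearMap.det (1 - (q : ℂ) ^ (-s) • exteriorPower.map j F)) ^ ((-1 : ℤ) ^ (j + 1)))
      (n : ℂ) = _
  rw [meromorphicOrderAt_fun_prod (fun j _ => (hdet j).1),
    Finset.sum_congr rfl (fun j _ => (hdet j).2), ← WithTop.coe_sum]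
  congr 1
  by_cases hn : 2 * n ∈ Finset.range (finrank ℂ V + 1)
  · rw [Finset.sum_eq_single_of_mem (2 * n) hn]
    · rw [pow_succ, pow_mul]
      simp
    · intro j _ hj
      rw [hzero j hj]
      simp
  · have h1 : finrank ℂ (Module.End.eigenspace (exteriorPower.map (2 * n) F) ((q : ℂ) ^ n)) = 0 := by
      have h2 : finrank ℂ (⋀[ℂ]^(2 * n) V) = 0 := by
        rw [exteriorPower.finrank_eq, Nat.choose_eq_zero_of_lt]
        rw [Finset.mem_range] at hn
        omega
      have h3 := Submodule.finrank_le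
        (Module.End.eigenspace (exteriorPower.map (2 * n) F) ((q : ℂ) ^ n))
      omega
    rw [h1, Finset.sum_eq_zero]
    · simp
    · intro j hj
      have hj2 : j ≠ 2 * n := fun h => hn (h ▸ hj)
      rw [hzero j hj2]
      simp

/-- Diagonal operators on the exterior powers. -/
theorem map_basis {N : ℕ} (b : Basis (Fin N) ℂ V) (F : V →ₗ[ℂ] V) (μ : Fin N → ℂ)
    (hμ : ∀ k, F (b k) = μ k • b k) (j : ℕ) (J : Set.powersetCard (Fin N) j) :
    exteriorPower.map j F (b.exteriorPower j J) =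
      (∏ l, μ (Set.powersetCard.ofFinEmbEquiv.symm J l)) • b.exteriorPower j J := by
  rw [exteriorPower.basis_apply, exteriorPower.map_apply_ιMulti_family]
  unfold exteriorPower.ιMulti_family
  have h1 : (F ∘ b) ∘ (Set.powersetCard.ofFinEmbEquiv.symm J) =
      fun l => μ (Set.powersetCard.ofFinEmbEquiv.symm J l) •
        (b ∘ (Set.powersetCard.ofFinEmbEquiv.symm J)) l := by
    funext l
    simp only [Function.comp_apply, hμ]
  rw [h1]
  exact (exteriorPower.ιMulti ℂ j).toMultilinearMap.map_smul_univ _ _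

/-- If `t k * t l = 1` whenever `μ k * μ l = q`, then the operator `t` acts trivially on the
divisor classes. -/
theorem map_two {N : ℕ} (b : Basis (Fin N) ℂ V) (F T : V →ₗ[ℂ] V) (μ t : Fin N → ℂ)
    (hμ : ∀ k, F (b k) = μ k • b k) (ht : ∀ k, T (b k) = t k • b k) (q : ℂ)
    (h : ∀ k l, μ k * μ l = q → t k * t l = 1) (y : ExteriorAlgebra ℂ V) (hy : y ∈ ⋀[ℂ]^2 V)
    (hF : ExteriorAlgebra.map F y = q • y) : ExteriorAlgebra.map T y = y := by
  classical
  let z : ⋀[ℂ]^2 V := ⟨y, hy⟩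
  let B := b.exteriorPower 2
  have h1 : exteriorPower.map 2 F z = q • z := by
    apply Subtype.ext
    rw [map_coe]
    exact hF
  have h2 : ∀ J, B.repr z J ≠ 0 →
      (∏ l, μ (Set.powersetCard.ofFinEmbEquiv.symm J l)) = q := by
    intro J hJ
    have h3 : exteriorPower.map 2 F z =
        ∑ J, (B.repr z J * ∏ l, μ (Set.powersetCard.ofFinEmbEquiv.symm J l)) • B J := by
      conv_lhs => rw [← B.sum_repr z]
      rw [map_sum]
      refine Finset.sum_congr rfl fun J _ => ?_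
      rw [map_smul, map_basis b F μ hμ, smul_smul]
    have h4 := congrArg (fun w => B.repr w J) h1
    simp only [h3, map_smul, Finsupp.smul_apply, smul_eq_mul] at h4
    rw [B.repr_sum_self] at h4
    exact mul_left_cancel₀ hJ (h4.trans (mul_comm _ _))
  have h5 : exteriorPower.map 2 T z = z := by
    conv_rhs => rw [← B.sum_repr z]
    conv_lhs => rw [← B.sum_repr z]
    rw [map_sum]
    refine Finset.sum_congr rfl fun J _ => ?_
    rw [map_smul, map_basis b T t ht, smul_smul]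
    by_cases hJ : B.repr z J = 0
    · rw [hJ, zero_mul]
    · have h6 := h2 J hJ
      rw [Fin.prod_univ_two] at h6 ⊢
      rw [h _ _ h6, mul_one]
  have h7 := congrArg (fun w : ⋀[ℂ]^2 V => (w : ExteriorAlgebra ℂ V)) h5
  simp only [map_coe] at h7
  exact h7

theorem map_divisorProducts {N : ℕ} (b : Basis (Fin N) ℂ V) (F T : V →ₗ[ℂ] V) (μ t : Fin N → ℂ)
    (hμ : ∀ k, F (b k) = μ k • b k) (ht : ∀ k, T (b k) = t k • b k) (q : ℂ)
    (h : ∀ k l, μ k * μ l = q → t k * t l = 1) (n : ℕ) :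
    ∀ x ∈ divisorProducts q F n, ExteriorAlgebra.map T x = x := by
  unfold divisorProducts
  induction n with
  | zero =>
    intro x hx
    rw [pow_zero] at hx
    obtain ⟨c, rfl⟩ := Submodule.mem_one.1 hx
    rw [AlgHom.commutes]
  | succ n ih =>
    intro x hx
    rw [pow_succ] at hx
    induction hx using Submodule.mul_induction_on' with
    | mem_mul_mem a ha b' hb =>
      have hb' : ExteriorAlgebra.map T b' = b' := by
        induction hb using Submodule.span_induction with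
        | mem y hy => exact map_two b F T μ t hμ ht q h y hy.1 hy.2
        | zero => rw [map_zero]
        | add y z _ _ hy hz => rw [map_add, hy, hz]
        | smul c y _ hy => rw [map_smul, hy]
      rw [map_mul, hb', ih a ha]
    | add a _ b' _ ha hb => rw [map_add, ha, hb]

/-- The action on the top exterior power. -/
theorem map_top {N : ℕ} (b : Basis (Fin N) ℂ V) (T : V →ₗ[ℂ] V) (t : Fin N → ℂ)
    (ht : ∀ k, T (b k) = t k • b k) (z : ⋀[ℂ]^N V) :
    exteriorPower.map N T z = (∏ k, t k) • z := by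
  classical
  have h1 : ((exteriorPower.ιMulti ℂ N : V [⋀^Fin N]→ₗ[ℂ] ⋀[ℂ]^N V)).compLinearMap T =
      (∏ k, t k) • exteriorPower.ιMulti ℂ N := by
    refine b.ext_alternating fun v hv => ?_
    have hb : Function.Bijective v := Finite.injective_iff_bijective.1 hv
    rw [AlternatingMap.compLinearMap_apply, AlternatingMap.smul_apply]
    have h2 : (fun i => T (b (v i))) = fun i => t (v i) • b (v i) := funext fun i => ht _
    have h3 := (exteriorPower.ιMulti ℂ N (M := V)).toMultilinearMap.map_smul_univ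
      (fun i => t (v i)) (fun i => b (v i))
    have h4 : ∏ i, t (v i) = ∏ k, t k := hb.prod_comp t
    rw [h4] at h3
    refine Eq.trans ?_ h3
    exact congrArg (exteriorPower.ιMulti ℂ N) h2
  have h2 : exteriorPower.map N T = (∏ k, t k) • LinearMap.id := by
    apply exteriorPower.linearMap_ext
    ext m
    simp only [LinearMap.compAlternatingMap_apply, exteriorPower.map_apply_ιMulti,
      LinearMap.smul_apply, LinearMap.id_apply]
    exact congrArg (fun f : V [⋀^Fin N]→ₗ[ℂ] ⋀[ℂ]^N V => ((f m : ⋀[ℂ]^N V) : ExteriorAlgebra ℂ V)) h1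
  rw [h2]
  rfl

end ext

variable {p : ℕ} [hp : Fact p.Prime] {I : Type} [Fintype I] {K : I → Type}
  [∀ i, Field (K i)] [∀ i, NumberField (K i)] [∀ i, IsCMField (K i)] {π : ∀ i, K i} {a : ℕ}

/-- The conjugate of a complex embedding. -/
def cconj (x : Σ i, (K i →+* ℂ)) : Σ i, (K i →+* ℂ) := ⟨x.1, ComplexEmbedding.conjugate x.2⟩

theorem cconj_cconj (x : Σ i, (K i →+* ℂ)) : cconj (cconj x) = x := by
  obtain ⟨i, φ⟩ := x
  have h1 : ComplexEmbedding.conjugate (ComplexEmbedding.conjugate φ) = φ := star_star φ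
  change (⟨i, ComplexEmbedding.conjugate (ComplexEmbedding.conjugate φ)⟩ : Σ i, (K i →+* ℂ)) = _
  rw [h1]

theorem mul_cconj (hweil : ∀ i, ∀ φ : K i →+* ℂ, ‖φ (π i)‖ ^ 2 = (p : ℝ) ^ a)
    (x : Σ i, (K i →+* ℂ)) : x.2 (π x.1) * (cconj x).2 (π (cconj x).1) = (p : ℂ) ^ a := by
  obtain ⟨i, φ⟩ := x
  change φ (π i) * ComplexEmbedding.conjugate φ (π i) = (p : ℂ) ^ a
  rw [ComplexEmbedding.conjugate_coe_eq, Complex.mul_conj, Complex.normSq_eq_norm_sq, hweil]
  push_cast
  rfl

theorem val_injective_complex (hgen : ∀ i, IntermediateField.adjoin ℚ {π i} = ⊤)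
    (hdist : ∀ i l, minpoly ℚ (π i) = minpoly ℚ (π l) → i = l) (x y : Σ i, (K i →+* ℂ))
    (h : x.2 (π x.1) = y.2 (π y.1)) : x = y := by
  obtain ⟨i, φ⟩ := x
  obtain ⟨l, ψ⟩ := y
  change φ (π i) = ψ (π l) at h
  have h0 : i = l := by
    apply hdist
    have h1 : minpoly ℚ (φ (π i)) = minpoly ℚ (π i) :=
      minpoly.algHom_eq (φ.toRatAlgHom) φ.injective (π i)
    have h2 : minpoly ℚ (ψ (π l)) = minpoly ℚ (π l) :=
      minpoly.algHom_eq (ψ.toRatAlgHom) ψ.injective (π l)
    rw [← h1, ← h2, h]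
  subst h0
  have h4 : φ = ψ := by
    ext x
    have hx : x ∈ IntermediateField.adjoin ℚ {π i} := by
      rw [hgen i]
      exact IntermediateField.mem_top
    induction hx using IntermediateField.adjoin_induction with
    | mem y hy => rw [Set.mem_singleton_iff.1 hy]; exact h
    | algebraMap r => simp
    | add x y _ _ hx hy => rw [map_add, map_add, hx, hy]
    | inv x _ hx => rw [map_inv₀, map_inv₀, hx]
    | mul x y _ _ hx hy => rw [map_mul, map_mul, hx, hy]
  rw [h4]

/-- Relations with positive exponents and an even number of factors. -/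
theorem exists_positive (hweil : ∀ i, ∀ φ : K i →+* ℂ, ‖φ (π i)‖ ^ 2 = (p : ℝ) ^ a)
    (n : (Σ i, (K i →+* ℂ)) → ℤ)
    (hn : (∏ x, (x.2 (π x.1)) ^ n x) ^ 2 = ∏ x : (Σ i, (K i →+* ℂ)), ((p : ℂ) ^ a) ^ n x) :
    ∃ (M : ℕ) (c : (Σ i, (K i →+* ℂ)) → ℕ), (∀ x, (c x : ℤ) = n x + M) ∧
      ∏ x, (x.2 (π x.1)) ^ (2 * c x) = ((p : ℂ) ^ a) ^ ∑ x, c x := by
  classical
  have hp0 : (p : ℂ) ^ a ≠ 0 := pow_ne_zero _ (Nat.cast_ne_zero.2 hp.out.ne_zero)
  have hv0 : ∀ x : (Σ i, (K i →+* ℂ)), x.2 (π x.1) ≠ 0 := fun x =>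
    (_root_.map_ne_zero _).2 (weil_ne_zero (m := a) (hweil x.1))
  let M : ℕ := ∑ x : (Σ i, (K i →+* ℂ)), (n x).natAbs
  have hM : ∀ x, 0 ≤ n x + M := by
    intro x
    have h1 : (n x).natAbs ≤ M :=
      Finset.single_le_sum (f := fun x => (n x).natAbs) (fun _ _ => Nat.zero_le _)
        (Finset.mem_univ x)
    omega
  refine ⟨M, fun x => (n x + M).toNat, fun x => Int.toNat_of_nonneg (hM x), ?_⟩
  have hc : ∀ x : (Σ i, (K i →+* ℂ)), (((n x + M).toNat : ℕ) : ℤ) = n x + M := fun x =>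
    Int.toNat_of_nonneg (hM x)
  have h1 : (∏ x : (Σ i, (K i →+* ℂ)), x.2 (π x.1)) ^ 2 =
      ∏ _x : (Σ i, (K i →+* ℂ)), (p : ℂ) ^ a := by
    rw [sq]
    have h2 : ∏ x : (Σ i, (K i →+* ℂ)), x.2 (π x.1) =
        ∏ x : (Σ i, (K i →+* ℂ)), (cconj x).2 (π (cconj x).1) := by
      refine (Finset.prod_nbij' cconj cconj (fun _ _ => Finset.mem_univ _)
        (fun _ _ => Finset.mem_univ _) (fun y _ => cconj_cconj y) (fun y _ => cconj_cconj y)
        (fun y _ => rfl)).symm
    conv_lhs => rw [h2]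
    rw [← h2]
    conv_lhs =>
      arg 2
      rw [h2]
    rw [← Finset.prod_mul_distrib]
    exact Finset.prod_congr rfl fun x _ => mul_cconj hweil x
  have h3 : ∏ x : (Σ i, (K i →+* ℂ)), (x.2 (π x.1)) ^ (2 * (n x + M).toNat) =
      (∏ x : (Σ i, (K i →+* ℂ)), (x.2 (π x.1)) ^ n x) ^ 2 *
        ((∏ x : (Σ i, (K i →+* ℂ)), x.2 (π x.1)) ^ 2) ^ M := by
    rw [← pow_mul, ← Finset.prod_pow, ← Finset.prod_pow, ← Finset.prod_mul_distrib]
    refine Finset.prod_congr rfl fun x _ => ?_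
    have h4 : (x.2 (π x.1)) ^ (2 * (n x + M).toNat) =
        (x.2 (π x.1)) ^ (((2 * (n x + M).toNat : ℕ) : ℤ)) := (zpow_natCast _ _).symm
    rw [h4, ← zpow_natCast (_ ^ n x) 2, ← zpow_mul, ← zpow_natCast _ (2 * M), ← zpow_add₀ (hv0 x)]
    congr 1
    push_cast
    rw [hc]
    ring
  have h5 : ∀ x : (Σ i, (K i →+* ℂ)), ((p : ℂ) ^ a) ^ n x * ((p : ℂ) ^ a) ^ M =
      ((p : ℂ) ^ a) ^ (n x + M).toNat := by
    intro x
    rw [← zpow_natCast ((p : ℂ) ^ a) M, ← zpow_add₀ hp0,
      ← zpow_natCast ((p : ℂ) ^ a) ((n x + M).toNat), hc x]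
  rw [h3, hn, h1, ← Finset.prod_pow, ← Finset.prod_mul_distrib,
    Finset.prod_congr rfl (fun x _ => h5 x)]
  exact Finset.prod_pow_eq_pow_sum _ _ _

theorem balanced_of_poleOrders (ha : 0 < a)
    (hgen : ∀ i, IntermediateField.adjoin ℚ {π i} = ⊤)
    (hdist : ∀ i l, minpoly ℚ (π i) = minpoly ℚ (π l) → i = l)
    (hweil : ∀ i, ∀ φ : K i →+* ℂ, ‖φ (π i)‖ ^ 2 = (p : ℝ) ^ a)
    (h : PoleOrders p a K π) : Balanced p (fun _ => a) π := by
  classical
  intro n hn
  obtain ⟨M, c, hc, hprod⟩ := exists_positive hweil n hn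
  let X := Σ i, (K i →+* ℂ)
  let S := Σ x : X, Fin (2 * c x)
  let T : ℕ := ∑ x, c x
  have hS : Fintype.card S = 2 * T := by
    rw [Fintype.card_sigma, Finset.mul_sum]
    exact Finset.sum_congr rfl fun x _ => Fintype.card_fin _
  let e : Fin (2 * T) ≃ S := (Fintype.equivFinOfCardEq hS).symm
  let y : Fin (2 * T) → X := fun k => (e k).1
  have hfib : ∀ g : X → ℂ, ∏ k, g (y k) = ∏ x, g x ^ (2 * c x) := by
    intro g
    rw [show ∏ k, g (y k) = ∏ z : S, g z.1 from Equiv.prod_comp e (fun z : S => g z.1),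
      Fintype.prod_sigma]
    refine Finset.prod_congr rfl fun x _ => ?_
    change ∏ _y : Fin (2 * c x), g x = _
    rw [Finset.prod_const, Finset.card_univ, Fintype.card_fin]
  let V := Fin (2 * T) → ℂ
  let b : Basis (Fin (2 * T)) ℂ V := Pi.basisFun ℂ _
  let dg : (Fin (2 * T) → ℂ) → V →ₗ[ℂ] V := fun t => LinearMap.pi fun k => t k • LinearMap.proj k
  have hdg : ∀ t k, dg t (b k) = t k • b k := by
    intro t k
    funext l
    change t l * b k l = t k * b k l
    by_cases hkl : l = k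
    · rw [hkl]
    · have h0 : b k l = 0 := by
        rw [Pi.basisFun_apply]
        exact Pi.single_eq_of_ne hkl 1
      rw [h0, mul_zero, mul_zero]
  let μ : Fin (2 * T) → ℂ := fun k => (y k).2 (π (y k).1)
  let F := dg μ
  have hp1 : (1 : ℝ) < p := by exact_mod_cast (Fact.out : p.Prime).one_lt
  have hF : Submodule.span ℂ {v : V | ∃ i, ∃ σ : K i →+* ℂ, F v = σ (π i) • v} = ⊤ := by
    rw [eq_top_iff, ← b.span_eq]
    refine Submodule.span_mono ?_
    rintro _ ⟨k, rfl⟩
    exact ⟨(y k).1, (y k).2, hdg μ k⟩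
  have hF' : Submodule.span ℂ {v : V | ∃ ν : ℂ, ν ∈ {ν : ℂ | ∃ i, ∃ σ : K i →+* ℂ, σ (π i) = ν} ∧
      F v = ν • v} = ⊤ := by
    rw [← hF]
    congr 1
    ext v
    constructor
    · rintro ⟨ν, ⟨i, σ, rfl⟩, h⟩
      exact ⟨i, σ, h⟩
    · rintro ⟨i, σ, h⟩
      exact ⟨_, ⟨i, σ, rfl⟩, h⟩
  have hcast2 : (((p : ℝ) ^ a : ℝ) : ℂ) = (p : ℂ) ^ a := by
    push_cast
    rfl
  have h1 := h V F hF 1 one_pos T
  rw [pow_one, pow_one, zeta_order_eigen ((p : ℝ) ^ a) (one_lt_pow₀ hp1 ha.ne') F _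
    (by rintro _ ⟨i, σ, rfl⟩; exact hweil i σ) hF' T, hcast2] at h1
  have h2 : finrank ℂ (Module.End.eigenspace (exteriorPower.map (2 * T) F) (((p : ℂ) ^ a) ^ T)) =
      finrank ℂ (divisorProducts ((p : ℂ) ^ a) F T) := by
    have h3 := WithTop.coe_injective h1
    omega
  -- the top exterior power
  have htop : ∀ z : ⋀[ℂ]^(2 * T) V, exteriorPower.map (2 * T) F z = (((p : ℂ) ^ a) ^ T) • z := by
    intro z
    rw [map_top b F μ (hdg μ) z]
    congr 1
    exact (hfib fun x => x.2 (π x.1)).trans hprod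
  have h4 : Module.End.eigenspace (exteriorPower.map (2 * T) F) (((p : ℂ) ^ a) ^ T) = ⊤ := by
    rw [eq_top_iff]
    intro z _
    rw [Module.End.mem_eigenspace_iff]
    exact htop z
  have h5 : finrank ℂ (divisorProducts ((p : ℂ) ^ a) F T) = 1 := by
    rw [← h2, h4, finrank_top, exteriorPower.finrank_eq]
    have h6 : finrank ℂ V = 2 * T := by simp [V]
    rw [h6, Nat.choose_self]
  obtain ⟨z, hz, hz0⟩ : ∃ z ∈ divisorProducts ((p : ℂ) ^ a) F T, z ≠ 0 := by
    by_contra hcon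
    push Not at hcon
    have h6 : divisorProducts ((p : ℂ) ^ a) F T = ⊥ := (Submodule.eq_bot_iff _).2 hcon
    rw [h6, finrank_bot] at h5
    exact zero_ne_one h5
  have hz2 : z ∈ ⋀[ℂ]^(2 * T) V :=
    pow_le_exteriorPower _ (Submodule.span_le.2 fun y hy => hy.1) T hz
  intro i φ
  let x0 : X := ⟨i, φ⟩
  let tt : X → ℂ := fun x => if x = x0 then 2 else if x = cconj x0 then 2⁻¹ else 1
  have hx0 : x0 ≠ cconj x0 := by
    intro h0
    have h7 : φ = ComplexEmbedding.conjugate φ := eq_of_heq (Sigma.mk.inj h0).2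
    refine cbar_ne φ (RingHom.ext fun x => ?_)
    change φ (IsCMField.complexConj (K i) x) = φ x
    rw [IsCMField.complexEmbedding_complexConj]
    exact (RingHom.congr_fun h7 x).symm
  have htt : ∀ x, tt x * tt (cconj x) = 1 := by
    intro x
    have hcx0 : ∀ x, cconj x = x0 ↔ x = cconj x0 := by
      intro x
      constructor
      · intro h6
        rw [← h6, cconj_cconj]
      · intro h6
        rw [h6, cconj_cconj]
    have hcx1 : ∀ x, cconj x = cconj x0 ↔ x = x0 := by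
      intro x
      constructor
      · intro h6
        rw [← cconj_cconj x, h6, cconj_cconj]
      · intro h6
        rw [h6]
    simp only [tt, hcx0, hcx1]
    by_cases h6 : x = x0
    · subst h6
      rw [if_pos rfl, if_neg hx0, if_pos rfl]
      norm_num
    · by_cases h7 : x = cconj x0
      · rw [if_neg h6, if_pos h7, if_pos h7]
        norm_num
      · rw [if_neg h6, if_neg h7, if_neg h7, if_neg h6, one_mul]
  let t : Fin (2 * T) → ℂ := fun k => tt (y k)
  have hT : ∀ k l, μ k * μ l = (p : ℂ) ^ a → t k * t l = 1 := by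
    intro k l hkl
    have h6 : y l = cconj (y k) := by
      apply val_injective_complex hgen hdist
      have h7 := mul_cconj hweil (y k)
      have h8 : (y k).2 (π (y k).1) ≠ 0 :=
        (_root_.map_ne_zero _).2 (weil_ne_zero (m := a) (hweil _))
      exact mul_left_cancel₀ h8 (hkl.trans h7.symm)
    simp only [t]
    rw [h6]
    exact htt _
  have h6 := map_divisorProducts b F (dg t) μ t (hdg μ) (hdg t) ((p : ℂ) ^ a) hT T z hz
  have h7 := congrArg (fun w : ⋀[ℂ]^(2 * T) V => (w : ExteriorAlgebra ℂ V))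
    (map_top b (dg t) t (hdg t) ⟨z, hz2⟩)
  simp only [map_coe] at h7
  have h8 : (∏ k, t k) • z = z := h7.symm.trans h6
  have h9 : ∏ k, t k = 1 := by
    have h10 : (∏ k, t k - 1) • z = 0 := by rw [sub_smul, h8, one_smul, sub_self]
    rcases smul_eq_zero.1 h10 with h11 | h11
    · exact sub_eq_zero.1 h11
    · exact absurd h11 hz0
  have h10 : ∏ k, t k = (2 : ℂ) ^ (2 * c x0) * (2⁻¹ : ℂ) ^ (2 * c (cconj x0)) := by
    have h11 : ∏ k, t k = ∏ x, tt x ^ (2 * c x) := hfib tt
    rw [h11, ← Finset.mul_prod_erase _ _ (Finset.mem_univ x0),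
      ← Finset.mul_prod_erase _ _ (Finset.mem_erase.2 ⟨hx0.symm, Finset.mem_univ (cconj x0)⟩)]
    have h12 : ∏ x ∈ (Finset.univ.erase x0).erase (cconj x0), tt x ^ (2 * c x) = 1 := by
      refine Finset.prod_eq_one fun x hx => ?_
      rw [Finset.mem_erase, Finset.mem_erase] at hx
      simp only [tt]
      rw [if_neg hx.2.1, if_neg hx.1, one_pow]
    rw [h12, mul_one]
    simp only [tt]
    rw [if_pos trivial, if_neg hx0.symm, if_pos trivial]
  rw [h10, inv_pow, mul_inv_eq_one₀ (pow_ne_zero _ two_ne_zero)] at h9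
  have h11 : 2 * c x0 = 2 * c (cconj x0) := by
    have h12 : ((2 : ℕ) : ℂ) ^ (2 * c x0) = ((2 : ℕ) : ℂ) ^ (2 * c (cconj x0)) := by
      exact_mod_cast h9
    have h13 : (2 : ℕ) ^ (2 * c x0) = 2 ^ (2 * c (cconj x0)) := by exact_mod_cast h12
    exact Nat.pow_right_injective le_rfl h13
  have h12 : (c x0 : ℤ) = c (cconj x0) := by omega
  rw [hc, hc] at h12
  exact add_right_cancel h12

/-- **The exact criterion for the formula of Tate for the orders of poles.** -/
theorem poleOrders_iff (ha : 0 < a) (h : IsWeilFamily p (fun _ => a) π) :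
    PoleOrders p a K π ↔ SlopesIndependent p (fun _ => a) π :=
  ⟨fun hP => independent_of_balanced h.generates h.distinct h.integral h.weil
    (balanced_of_poleOrders ha h.generates h.distinct h.weil hP),
    poleOrders_of_independent ha h⟩

end Run7.h31.ES
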