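import Mathlib
import Pool.Agent.Run7.h31.ES.Defs

/-!
# The exact slope criterion relative to another Weil number: definitions (helper31)
-/

set_option autoImplicit false

namespace Run7.h31.ES

open NumberField Polynomial Pool.Agent.Run7.h142.TF

variable {I : Type} {K : I → Type} [∀ i, Field (K i)] [∀ i, NumberField (K i)]
  [∀ i, IsCMField (K i)]

/-- All the conjugates of `α` have absolute value `p ^ (w / 2)`. -/
def HasWeight (p w : ℕ) (α : ℂ) : Prop :=
  ∀ z : ℂ, aeval z (minpoly ℚ α) = 0 → ‖z‖ ^ 2 = (p : ℝ) ^ w

/-- For every `i` the slope function of `π i` is not a linear combination, with rational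
coefficients, of the slope functions of the other factors over `K i` and the slope function of one
irreducible factor `g` over `K i` of the minimal polynomial of the number `α` of weight `w`. -/
def ClearOf (p : ℕ) [Fact p.Prime] (m : I → ℕ) (π : ∀ i, K i) (w : ℕ) (α : ℂ) : Prop :=
  ∀ i, ∀ g : (K i)[X], g.Monic → Irreducible g → g ∣ (minpoly ℚ α).map (algebraMap ℚ (K i)) →
    dev p (m i) (π i) ∉ Submodule.span ℚ
      ({D | ∃ l h, IsOther π i l h ∧ D = slope p (m l) h} ∪ {slope p w g})

/-- The Weil number `α` of weight `w` does not interfere with the family: the slope function of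
`π i` is not a combination of the slope functions of the other factors and of one factor of the
minimal polynomial of `α`. -/
def NoInterference (p : ℕ) [Fact p.Prime] (m : I → ℕ) (π : ∀ i, K i) (α : ℂ) : Prop :=
  ∃ w : ℕ, HasWeight p w α ∧ ClearOf p m π w α

end Run7.h31.ES
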