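import Mathlib
import Pool.Agent.Run7.h31.ES.RelDefs
import Pool.Agent.Run7.h31.ES.Single

/-!
# Weil numbers whose factors have real constant coefficients do not interfere (helper31)
-/

set_option autoImplicit false
set_option linter.unusedSectionVars false

namespace Run7.h31.ES

open NumberField Module Polynomial Pool.Agent.Run7.h142.TF Pool.Agent.H485R3

variable {I : Type} {K : I → Type} [∀ i, Field (K i)] [∀ i, NumberField (K i)]
  [∀ i, IsCMField (K i)] {π : ∀ i, K i} {p : ℕ} [hp : Fact p.Prime] {m : I → ℕ}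

/-- All irreducible factors over the fields `K i` of the minimal polynomial of `α` have real constant
coefficients; for instance the minimal polynomial of `α` is irreducible over `K i`, or `α` is
real. -/
def RealFactors (K : I → Type) [∀ i, Field (K i)] [∀ i, NumberField (K i)] [∀ i, IsCMField (K i)]
    (α : ℂ) : Prop :=
  ∀ i, ∀ g : (K i)[X], g.Monic → Irreducible g → g ∣ (minpoly ℚ α).map (algebraMap ℚ (K i)) →
    IsCMField.complexConj (K i) (g.coeff 0) = g.coeff 0

theorem norm_coeff_zero_of_weight {F : Type} [Field F] [NumberField F] {α : ℂ} {w : ℕ}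
    (hα : HasWeight p w α) {h : F[X]} (hm : h.Monic)
    (hdvd : h ∣ (minpoly ℚ α).map (algebraMap ℚ F)) (φ : F →+* ℂ) :
    ‖φ (h.coeff 0)‖ ^ 2 = (p : ℝ) ^ (w * h.natDegree) := by
  have hs : (h.map φ).Splits := IsAlgClosed.splits _
  have h1 : φ (h.coeff 0) = (-1) ^ (h.map φ).natDegree * (h.map φ).roots.prod := by
    rw [← hs.coeff_zero_eq_prod_roots_of_monic (hm.map φ), coeff_map]
  have h2 : ∀ z ∈ (h.map φ).roots, ‖z‖ ^ 2 = (p : ℝ) ^ w := by
    intro z hz
    have h3 : (h.map φ).eval z = 0 := (mem_roots'.1 hz).2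
    have h4 : aeval z (minpoly ℚ α) = 0 := by
      obtain ⟨g, hg⟩ := hdvd
      have h5 : ((minpoly ℚ α).map (algebraMap ℚ F)).map φ = h.map φ * g.map φ := by
        rw [hg, Polynomial.map_mul]
      rw [Polynomial.map_map] at h5
      have h6 : (φ.comp (algebraMap ℚ F)) = algebraMap ℚ ℂ := RingHom.ext_rat _ _
      rw [h6] at h5
      have h7 : eval z ((minpoly ℚ α).map (algebraMap ℚ ℂ)) = 0 := by
        rw [h5, eval_mul, h3, zero_mul]
      rwa [eval_map_algebraMap] at h7
    exact hα z h4
  rw [h1, norm_mul, norm_pow, norm_neg, norm_one, one_pow, one_mul]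
  have h3 : ∀ s : Multiset ℂ, (∀ z ∈ s, ‖z‖ ^ 2 = (p : ℝ) ^ w) →
      ‖s.prod‖ ^ 2 = (p : ℝ) ^ (w * Multiset.card s) := by
    intro s
    induction s using Multiset.induction_on with
    | empty => intro _; simp
    | cons z s ih =>
      intro hz
      rw [Multiset.prod_cons, norm_mul, mul_pow, hz z (Multiset.mem_cons_self z s),
        ih fun y hy => hz y (Multiset.mem_cons_of_mem hy), Multiset.card_cons, ← pow_add]
      congr 1
      ring
  rw [h3 _ h2]
  congr 2
  rw [← hs.natDegree_eq_card_roots, natDegree_map]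

theorem slope_eq_zero_of_weight {F : Type} [Field F] [NumberField F] [IsCMField F] {α : ℂ} {w : ℕ}
    (hα : HasWeight p w α) {h : F[X]} (hm : h.Monic)
    (hdvd : h ∣ (minpoly ℚ α).map (algebraMap ℚ F))
    (hreal : IsCMField.complexConj F (h.coeff 0) = h.coeff 0) : slope p w h = 0 := by
  have hp1 : (1 : ℝ) < p := by exact_mod_cast (Fact.out : p.Prime).one_lt
  have h1 := mul_conj_eq p (h.coeff 0) (w * h.natDegree)
    (norm_coeff_zero_of_weight hα hm hdvd)
  rw [hreal, ← pow_two] at h1
  funext τ
  have h2 := congrArg (fun y => Real.logb p ‖τ y‖) h1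
  simp only [map_pow, map_natCast, norm_pow, Real.logb_pow, norm_p_inv, Real.logb_inv,
    Real.logb_self_eq_one hp1] at h2
  change 2 * (-Real.logb p ‖τ (h.coeff 0)‖) - ((w * h.natDegree : ℕ) : ℝ) = 0
  push_cast at h2 ⊢
  linarith

theorem clear_of_real {w : ℕ} {α : ℂ} (hs : SlopesIndependent p m π) (hα : HasWeight p w α)
    (hr : RealFactors K α) : ClearOf p m π w α := by
  intro i g hg1 hg2 hg3 h
  refine hs i ?_
  have h0 := slope_eq_zero_of_weight hα hg1 hg3 (hr i g hg1 hg2 hg3)
  rw [h0] at h
  have h2 : Submodule.span ℚ ({D | ∃ l h, IsOther π i l h ∧ D = slope p (m l) h} ∪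
      {(0 : (K i →+* PadicAlgCl p) → ℝ)}) =
      Submodule.span ℚ {D | ∃ l h, IsOther π i l h ∧ D = slope p (m l) h} := by
    rw [Submodule.span_union, Submodule.span_zero_singleton, sup_bot_eq]
  rwa [h2] at h

theorem noInterference_of_real {w : ℕ} {α : ℂ} (hs : SlopesIndependent p m π)
    (hα : HasWeight p w α) (hr : RealFactors K α) : NoInterference p m π α :=
  ⟨w, hα, clear_of_real hs hα hr⟩

/-- Conversely, if there is no interference, then the family is independent. -/
theorem independent_of_noInterference {α : ℂ} (hint : IsIntegral ℚ α)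
    (h : NoInterference p m π α) : SlopesIndependent p m π := by
  obtain ⟨w, _, h2⟩ := h
  intro i hi
  have hd : ((minpoly ℚ α).map (algebraMap ℚ (K i))).natDegree ≠ 0 := by
    rw [natDegree_map]
    exact (minpoly.natDegree_pos hint).ne'
  obtain ⟨g, hg, hg2⟩ := exists_monic_irreducible_factor _
    (show ¬ IsUnit ((minpoly ℚ α).map (algebraMap ℚ (K i))) from fun hu =>
      hd (natDegree_eq_zero_of_isUnit hu))
  exact h2 i g hg hg2.1 hg2.2 (Submodule.span_mono Set.subset_union_left hi)

end Run7.h31.ES
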