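import Mathlib
import Pool.Agent.Run7.h31.ES.Core

/-!
# Averages of relations over stabilisers, with an additional function (helper31)
-/

set_option autoImplicit false
set_option linter.unusedSectionVars false
set_option linter.style.haveILetI false

namespace Run7.h31.ES

open NumberField Module Polynomial IntermediateField Pool.Agent.H204R3.CM

variable {I : Type} {K : I → Type} [∀ i, Field (K i)] [∀ i, NumberField (K i)]
  {L : Type} [Field L] [NumberField L] [Fintype I] [∀ i, IsCMField (K i)] [IsGalois ℚ L]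

open Classical in
/-- The same as `core` for relations with an additional function on the Galois group. -/
theorem core2 {π : ∀ i, K i} (hgen : ∀ i, ℚ⟮π i⟯ = ⊤)
    (hdist : ∀ i l, minpoly ℚ (π i) = minpoly ℚ (π l) → i = l)
    (c : (Σ l, (K l →+* L)) → ℚ) (e : (Σ l, (K l →+* L)) → ℝ)
    (hc : ∀ x, c (xbar x) = - c x) (he : ∀ x, e (xbar x) = - e x)
    (E : (L ≃ₐ[ℚ] L) → ℝ)
    (hrel : ∀ σ : L ≃ₐ[ℚ] L, ∑ x, (c x : ℝ) * e (act σ x) + E σ = 0) (hnz : ∃ x, c x ≠ 0)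
    (w : I → ℚ) (hw : ∀ i, 0 < w i) :
    ∃ (x0 : Σ l, (K l →+* L)) (b : (K x0.1)[X] → ℚ) (r : ℚ),
      (∀ x, 2 * w x.1 * |b (mp π x0.2 x)| ≤ w x0.1) ∧
      b (X - C (π x0.1)) = 0 ∧ b (X - C (IsCMField.complexConj (K x0.1) (π x0.1))) = 0 ∧
      ∀ σ : L ≃ₐ[ℚ] L, e (act σ x0) = ∑ x, (b (mp π x0.2 x) : ℝ) * e (act σ x) +
        (r : ℝ) * ∑ τ ∈ Finset.univ.filter (fun τ : L ≃ₐ[ℚ] L => τ • x0.2 = x0.2), E (σ * τ) := by
  obtain ⟨x0, hx0, hmax⟩ := exists_max c hnz (fun x => w x.1) (fun x => hw x.1)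
  let H : Finset (L ≃ₐ[ℚ] L) := Finset.univ.filter fun τ => τ • x0.2 = x0.2
  have hH : ∀ τ : L ≃ₐ[ℚ] L, τ ∈ H ↔ τ • x0.2 = x0.2 := fun τ => by simp [H]
  let Cb : (Σ l, (K l →+* L)) → ℚ := fun x => ∑ τ ∈ H, c (act τ x)
  have hbar : ∀ (τ : L ≃ₐ[ℚ] L) (x : Σ l, (K l →+* L)), act τ (xbar x) = xbar (act τ x) := fun τ x => rfl
  have hfix : ∀ τ ∈ H, act τ x0 = x0 := by
    intro τ hτ
    rw [act_mk, (hH τ).1 hτ]
  have hCinv : ∀ s ∈ H, ∀ x, Cb (act s x) = Cb x := by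
    intro s hs x
    refine Finset.sum_bij (fun τ _ => τ * s) ?_ ?_ ?_ ?_
    · intro τ hτ
      rw [hH] at hτ hs ⊢
      rw [mul_smul, hs, hτ]
    · intro a _ b _ hab
      exact mul_right_cancel hab
    · intro b hb
      refine ⟨b * s⁻¹, ?_, by group⟩
      rw [hH] at hb hs ⊢
      rw [mul_smul]
      have : s⁻¹ • x0.2 = x0.2 := by rw [inv_smul_eq_iff, hs]
      rw [this, hb]
    · intro τ _
      rfl
  have hCbar : ∀ x, Cb (xbar x) = - Cb x := by
    intro x
    simp only [Cb, hbar, hc, Finset.sum_neg_distrib]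
  have hC0 : Cb x0 = H.card * c x0 := by
    simp only [Cb]
    rw [Finset.sum_congr rfl (g := fun _ => c x0) (fun τ hτ => by rw [hfix τ hτ]),
      Finset.sum_const, nsmul_eq_mul]
  have hcard : (0 : ℚ) < H.card := by
    have : (1 : L ≃ₐ[ℚ] L) ∈ H := by rw [hH, one_smul]
    exact_mod_cast Finset.card_pos.2 ⟨1, this⟩
  have hC0ne : Cb x0 ≠ 0 := by
    rw [hC0]
    exact mul_ne_zero hcard.ne' hx0
  have hCle : ∀ x, w x.1 * |Cb x| ≤ w x0.1 * |Cb x0| := by
    intro x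
    calc w x.1 * |Cb x| ≤ w x.1 * ∑ τ ∈ H, |c (act τ x)| :=
          mul_le_mul_of_nonneg_left (Finset.abs_sum_le_sum_abs _ _) (hw _).le
      _ = ∑ τ ∈ H, w x.1 * |c (act τ x)| := Finset.mul_sum _ _ _
      _ ≤ ∑ τ ∈ H, w x0.1 * |c x0| := Finset.sum_le_sum fun τ _ => hmax (act τ x)
      _ = w x0.1 * |Cb x0| := by
        rw [Finset.sum_const, nsmul_eq_mul, hC0, abs_mul, abs_of_pos hcard]
        ring
  have hEsum : ∀ σ : L ≃ₐ[ℚ] L, ∑ τ ∈ H, E (σ * τ⁻¹) = ∑ τ ∈ H, E (σ * τ) := by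
    intro σ
    refine Finset.sum_nbij' (fun τ => τ⁻¹) (fun τ => τ⁻¹) ?_ ?_ ?_ ?_ ?_
    · intro τ hτ
      rw [hH] at hτ ⊢
      rw [inv_smul_eq_iff, hτ]
    · intro τ hτ
      rw [hH] at hτ ⊢
      rw [inv_smul_eq_iff, hτ]
    · intro τ _
      exact inv_inv τ
    · intro τ _
      exact inv_inv τ
    · intro τ _
      rfl
  have hCrel : ∀ σ : L ≃ₐ[ℚ] L, ∑ x, (Cb x : ℝ) * e (act σ x) =
      -∑ τ ∈ H, E (σ * τ) := by
    intro σ
    have h1 : ∀ τ ∈ H, ∑ x, (c (act τ x) : ℝ) * e (act σ x) = -E (σ * τ⁻¹) := by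
      intro τ _
      rw [eq_neg_iff_add_eq_zero, ← hrel (σ * τ⁻¹)]
      congr 1
      refine Fintype.sum_equiv (act τ) _ _ fun x => ?_
      rw [← act_mul]
      congr 2
      rw [inv_mul_cancel_right]
    have h2 : ∑ x, (Cb x : ℝ) * e (act σ x) =
        ∑ τ ∈ H, ∑ x, (c (act τ x) : ℝ) * e (act σ x) := by
      rw [Finset.sum_comm]
      refine Finset.sum_congr rfl fun x _ => ?_
      simp only [Cb]
      push_cast
      rw [Finset.sum_mul]
    rw [h2, Finset.sum_congr rfl h1, Finset.sum_neg_distrib, hEsum]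
  have hmp : ∀ x y, mp π x0.2 x = mp π x0.2 y → Cb x = Cb y := by
    intro x y h
    obtain ⟨τ, hτ, rfl⟩ := mp_orbit hgen hdist x0.2 h
    rw [hCinv τ ((hH τ).2 hτ)]
  let b : (K x0.1)[X] → ℚ := fun h =>
    if h = X - C (π x0.1) ∨ h = X - C (IsCMField.complexConj (K x0.1) (π x0.1)) then 0
    else if hh : ∃ x, mp π x0.2 x = h then -(Cb hh.choose) / (2 * Cb x0) else 0
  have hb1 : ∀ x, x ≠ x0 → x ≠ xbar x0 → b (mp π x0.2 x) = -(Cb x) / (2 * Cb x0) := by
    intro x h1 h2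
    simp only [b]
    rw [if_neg]
    · have hh : ∃ y, mp π x0.2 y = mp π x0.2 x := ⟨x, rfl⟩
      rw [dif_pos hh, hmp _ _ hh.choose_spec]
    · rintro (h | h)
      · exact h1 (mp_self hgen hdist x0.2 h)
      · exact h2 (mp_bar hgen hdist x0.2 h)
  have hb0 : b (mp π x0.2 x0) = 0 := by
    have : mp π x0.2 x0 = X - C (π x0.1) := by
      letI := x0.2.toAlgebra
      exact minpoly.eq_X_sub_C L (π x0.1)
    simp only [b]
    rw [if_pos (Or.inl this)]
  have hb2 : b (mp π x0.2 (xbar x0)) = 0 := by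
    have : mp π x0.2 (xbar x0) = X - C (IsCMField.complexConj (K x0.1) (π x0.1)) := by
      letI := x0.2.toAlgebra
      exact minpoly.eq_X_sub_C L (IsCMField.complexConj (K x0.1) (π x0.1))
    simp only [b]
    rw [if_pos (Or.inr this)]
  have hq : (0 : ℚ) < |Cb x0| := abs_pos.2 hC0ne
  refine ⟨x0, b, -(2 * Cb x0)⁻¹, ?_, ?_, ?_, ?_⟩
  · intro x
    by_cases h1 : x = x0
    · rw [h1, hb0, abs_zero, mul_zero]
      exact (hw _).le
    · by_cases h2 : x = xbar x0
      · rw [h2, hb2, abs_zero, mul_zero]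
        exact (hw _).le
      · rw [hb1 x h1 h2, abs_div, abs_neg, abs_mul, abs_two, ← mul_div_assoc,
          div_le_iff₀ (by positivity)]
        have h3 := hCle x
        linarith
  · simp only [b]
    rw [if_pos (Or.inl trivial)]
  · simp only [b]
    rw [if_pos (Or.inr trivial)]
  · intro σ
    have hne : x0 ≠ xbar x0 := (xbar_ne x0).symm
    have hC0R : (Cb x0 : ℝ) ≠ 0 := by exact_mod_cast hC0ne
    have h1 : ∀ x, (b (mp π x0.2 x) : ℝ) * e (act σ x) = -(2 * (Cb x0 : ℝ))⁻¹ *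
        ((Cb x : ℝ) * e (act σ x) - (if x = x0 then (Cb x0 : ℝ) * e (act σ x0) else 0) -
          (if x = xbar x0 then (Cb x0 : ℝ) * e (act σ x0) else 0)) := by
      intro x
      by_cases h1 : x = x0
      · subst h1
        rw [hb0, if_pos rfl, if_neg hne]
        simp
      · by_cases h2 : x = xbar x0
        · subst h2
          rw [hb2, if_neg h1, if_pos rfl, hCbar, hbar, he]
          push_cast
          ring
        · rw [hb1 x h1 h2, if_neg h1, if_neg h2]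
          push_cast
          field_simp
          ring
    rw [Finset.sum_congr rfl fun x _ => h1 x, ← Finset.mul_sum, Finset.sum_sub_distrib,
      Finset.sum_sub_distrib, hCrel, Finset.sum_ite_eq' Finset.univ, Finset.sum_ite_eq' Finset.univ,
      if_pos (Finset.mem_univ _), if_pos (Finset.mem_univ _)]
    push_cast
    field_simp
    ring

end Run7.h31.ES
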