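import Mathlib
import Pool.Agent.Run7.h31.ES.CoreTwo
import Pool.Agent.Run7.h31.ES.Unit
import Pool.Agent.H977R3.WN.Crit
import Pool.Agent.Run7.h31.ES.RelDefs

/-!
# Relations with a further Weil number and slope functions (helper31)
-/

set_option autoImplicit false
set_option linter.unusedSectionVars false
set_option linter.style.haveILetI false

namespace Run7.h31.ES

open NumberField Module Polynomial IntermediateField Pool.Agent.H204R3.CM Pool.Agent.Run7.h142.TF

variable {I : Type} {K : I → Type} [∀ i, Field (K i)] [∀ i, NumberField (K i)]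
  {L : Type} [Field L] [NumberField L] [IsGalois ℚ L] {π : ∀ i, K i}

open Classical in
/-- The norm of `β` to a subfield is, up to sign, a power of the constant coefficient of the minimal
polynomial. -/
theorem norm_power {F : Type} [Field F] [NumberField F] (φ : F →+* L) (β : L) :
    ∃ (g : F[X]) (d : ℕ), g.Monic ∧ Irreducible g ∧ g ∣ (minpoly ℚ β).map (algebraMap ℚ F) ∧
      0 < d ∧ g.natDegree * d = (Finset.univ.filter (fun τ : L ≃ₐ[ℚ] L => τ • φ = φ)).card ∧
      ∏ τ ∈ Finset.univ.filter (fun τ : L ≃ₐ[ℚ] L => τ • φ = φ), τ β =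
          φ (((-1) ^ g.natDegree * g.coeff 0) ^ d) := by
  letI := φ.toAlgebra
  haveI : IsScalarTower ℚ F L := IsScalarTower.of_algebraMap_eq' (RingHom.ext_rat _ _)
  haveI : FiniteDimensional F L := FiniteDimensional.right ℚ F L
  haveI : IsGalois F L := IsGalois.tower_top_of_isGalois ℚ F L
  have hint : IsIntegral F β := Algebra.IsIntegral.isIntegral β
  have hb : ∀ f : L → L, ∏ τ ∈ Finset.univ.filter (fun τ : L ≃ₐ[ℚ] L => τ • φ = φ), τ β =
      ∏ τ : L ≃ₐ[F] L, τ β := by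
    intro _
    refine (Finset.prod_bij (fun (τ : L ≃ₐ[F] L) _ => τ.restrictScalars ℚ) ?_ ?_ ?_ ?_).symm
    · intro τ _
      simp only [Finset.mem_filter, Finset.mem_univ, true_and]
      exact RingHom.ext fun a => τ.commutes a
    · intro τ _ σ _ h
      ext x
      exact DFunLike.congr_fun h x
    · intro τ hτ
      simp only [Finset.mem_filter, Finset.mem_univ, true_and] at hτ
      refine ⟨{ τ with commutes' := fun a => RingHom.congr_fun hτ a }, Finset.mem_univ _, ?_⟩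
      ext x
      rfl
    · intro τ _
      rfl
  have hc : (Finset.univ.filter (fun τ : L ≃ₐ[ℚ] L => τ • φ = φ)).card = finrank F L := by
    rw [← IsGalois.card_aut_eq_finrank F L, Nat.card_eq_fintype_card, ← Finset.card_univ]
    refine (Finset.card_bij (fun (τ : L ≃ₐ[F] L) _ => τ.restrictScalars ℚ) ?_ ?_ ?_).symm
    · intro τ _
      simp only [Finset.mem_filter, Finset.mem_univ, true_and]
      exact RingHom.ext fun a => τ.commutes a
    · intro τ _ σ _ h
      ext x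
      exact DFunLike.congr_fun h x
    · intro τ hτ
      simp only [Finset.mem_filter, Finset.mem_univ, true_and] at hτ
      refine ⟨{ τ with commutes' := fun a => RingHom.congr_fun hτ a }, Finset.mem_univ _, ?_⟩
      ext x
      rfl
  refine ⟨minpoly F β, finrank F⟮β⟯ L, minpoly.monic hint, minpoly.irreducible hint,
    minpoly.dvd_map_of_isScalarTower ℚ F β, finrank_pos, ?_, ?_⟩
  · rw [hc, ← IntermediateField.adjoin.finrank hint, finrank_mul_finrank]
  · rw [hb id, ← Algebra.norm_eq_prod_automorphisms, Algebra.norm_eq_norm_adjoin]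
    have h1 := Algebra.PowerBasis.norm_gen_eq_coeff_zero_minpoly
      (IntermediateField.adjoin.powerBasis hint)
    rw [IntermediateField.adjoin.powerBasis_gen, IntermediateField.minpoly_gen,
      IntermediateField.adjoin.powerBasis_dim] at h1
    rw [h1]
    rfl

section main

variable [Fintype I] [∀ i, IsCMField (K i)] {p : ℕ} [hp : Fact p.Prime] {m : I → ℕ}

theorem comb_mem (hgen : ∀ i, ℚ⟮π i⟯ = ⊤)
    (hdist : ∀ i l, minpoly ℚ (π i) = minpoly ℚ (π l) → i = l)
    (hne : ∀ l, Nonempty (K l →+* L)) (hπ0 : ∀ i, π i ≠ 0) (jp : L →+* PadicAlgCl p)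
    (x0 : Σ l, (K l →+* L)) (b : (K x0.1)[X] → ℚ) (hb2 : b (X - C (π x0.1)) = 0)
    (hb3 : b (X - C (IsCMField.complexConj (K x0.1) (π x0.1))) = 0) :
    ∃ D ∈ Submodule.span ℚ {D | ∃ l h, IsOther π x0.1 l h ∧ D = slope p (m l) h},
      ∀ σ : L ≃ₐ[ℚ] L, D (jp.comp (σ • x0.2)) = ∑ x : Σ l, (K l →+* L),
        (b (mp π x0.2 x) : ℝ) * dev p (m x.1) (π x.1) (jp.comp (σ • x.2)) := by
  classical
  let T : Finset (Σ l, (K l →+* L)) := Finset.univ.filter fun x =>
    mp π x0.2 x ≠ X - C (π x0.1) ∧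
      mp π x0.2 x ≠ X - C (IsCMField.complexConj (K x0.1) (π x0.1))
  have hT : ∀ x, x ∈ T ↔ mp π x0.2 x ≠ X - C (π x0.1) ∧
      mp π x0.2 x ≠ X - C (IsCMField.complexConj (K x0.1) (π x0.1)) := fun x => by simp [T]
  have hother : ∀ x ∈ T, IsOther π x0.1 x.1 (mp π x0.2 x) := by
    intro x hx
    rw [hT] at hx
    letI := x0.2.toAlgebra
    haveI : IsScalarTower ℚ (K x0.1) L := tower x0.1 x0.2
    have hint : IsIntegral (K x0.1) (val π x) :=
      (Algebra.IsIntegral.isIntegral (R := ℚ) (val π x)).tower_top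
    refine ⟨minpoly.monic hint, minpoly.irreducible hint, ?_, hx.1, hx.2⟩
    have h1 := minpoly.dvd_map_of_isScalarTower ℚ (K x0.1) (val π x)
    rwa [minpoly_val] at h1
  refine ⟨∑ s ∈ T.image (fun x => (x.1, mp π x0.2 x)), b s.2 • slope p (m s.1) s.2,
    Submodule.sum_mem _ fun s hs => Submodule.smul_mem _ _ (Submodule.subset_span ?_), ?_⟩
  · obtain ⟨x, hx, rfl⟩ := Finset.mem_image.1 hs
    exact ⟨_, _, hother x hx, rfl⟩
  · intro σ
    rw [Finset.sum_apply]
    have h3 : ∑ x : Σ l, (K l →+* L), (b (mp π x0.2 x) : ℝ) *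
        dev p (m x.1) (π x.1) (jp.comp (σ • x.2)) =
        ∑ x ∈ T, (b (mp π x0.2 x) : ℝ) * dev p (m x.1) (π x.1) (jp.comp (σ • x.2)) := by
      refine (Finset.sum_subset (Finset.subset_univ T) fun x _ hx => ?_).symm
      rw [hT, not_and_or, not_not, not_not] at hx
      rcases hx with hx | hx
      · rw [hx, hb2, Rat.cast_zero, zero_mul]
      · rw [hx, hb3, Rat.cast_zero, zero_mul]
    rw [h3, ← Finset.sum_fiberwise_of_maps_to (g := fun x => (x.1, mp π x0.2 x))
      (t := T.image fun x => (x.1, mp π x0.2 x)) (fun x hx => Finset.mem_image_of_mem _ hx)]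
    refine Finset.sum_congr rfl fun s hs => ?_
    obtain ⟨y, hy, rfl⟩ := Finset.mem_image.1 hs
    have hy' := hother y hy
    rw [Pi.smul_apply, Rat.smul_def,
      slope_eq hgen hdist hne x0.2 hy'.monic hy'.irr hy'.dvd hπ0 jp σ, Finset.mul_sum]
    refine Finset.sum_congr ?_ fun x hx => ?_
    · ext x
      simp only [Finset.mem_filter, Finset.mem_univ, true_and, Prod.mk.injEq]
      constructor
      · intro h
        refine ⟨?_, fst_eq hdist x0.2 hy'.dvd h, h⟩
        rw [hT, h]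
        exact (hT y).1 hy
      · exact fun h => h.2.2
    · have h4 : mp π x0.2 x = mp π x0.2 y := by
        exact (Prod.mk.inj (Finset.mem_filter.1 hx).2).2
      rw [h4]

theorem span_union_mem {V : Type} [AddCommGroup V] [Module ℚ V] {A : Set V} {x D s : V} {r : ℚ}
    (hD : D ∈ Submodule.span ℚ A) (h : x = D + r • s) : x ∈ Submodule.span ℚ (A ∪ {s}) := by
  rw [h]
  exact Submodule.add_mem _ (Submodule.span_mono Set.subset_union_left hD)
    (Submodule.smul_mem _ _ (Submodule.subset_span (Or.inr rfl)))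

/-- If the slope functions are independent of the slope function of `β`, then the products of the
`π i` whose power is a power of `β` are balanced. -/
theorem balanced_of_clear (hgen : ∀ i, ℚ⟮π i⟯ = ⊤)
    (hdist : ∀ i l, minpoly ℚ (π i) = minpoly ℚ (π l) → i = l) (j : L →+* ℂ)
    (hj : ∀ i, ∀ ψ : K i →+* ℂ, ∃ φ : K i →+* L, j.comp φ = ψ)
    (hweil : ∀ i, ∀ φ : K i →+* ℂ, ‖φ (π i)‖ ^ 2 = (p : ℝ) ^ m i)
    {w : ℕ} {β : L} (hβw : ‖j β‖ ^ 2 = (p : ℝ) ^ w) (hcl : ClearOf p m π w (j β))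
    {T N : ℕ} (hN : 0 < N) (J : Fin T → (Σ l, (K l →+* L)))
    (hβN : β ^ N = ∏ l, (val π (J l)) ^ N) (c : (Σ l, (K l →+* L)) → ℕ)
    (hcJ : ∀ f : (Σ l, (K l →+* L)) → ℝ, ∑ l, f (J l) = ∑ x, (c x : ℝ) * f x)
    (x : Σ l, (K l →+* L)) : c x = c (xbar x) := by
  classical
  by_contra hcon
  have hp1 : (1 : ℝ) < p := by exact_mod_cast (Fact.out : p.Prime).one_lt
  have hp0 : (0 : ℝ) < p := by linarith
  let jp : L →+* PadicAlgCl p := ((IsAlgClosed.lift : L →ₐ[ℚ] PadicAlgCl p) : L →+* PadicAlgCl p)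
  have hπ0 : ∀ i, π i ≠ 0 := fun i => weil_ne_zero (hweil i)
  have hv0 : ∀ x : Σ i, (K i →+* L), val π x ≠ 0 := fun x =>
    (_root_.map_ne_zero x.2).2 (hπ0 x.1)
  have hne : ∀ l, Nonempty (K l →+* L) := fun l => by
    obtain ⟨φ, _⟩ := hj l (Classical.arbitrary _)
    exact ⟨φ⟩
  have hβ0 : β ≠ 0 := by
    rintro rfl
    rw [map_zero, norm_zero, zero_pow two_ne_zero] at hβw
    exact (pow_pos hp0 _).ne hβw
  have hNR : (N : ℝ) ≠ 0 := by exact_mod_cast hN.ne'
  -- weights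
  have hwt : (w : ℝ) = ∑ x, (c x : ℝ) * (m x.1 : ℝ) := by
    have h1 : ((p : ℝ) ^ w) ^ N = ∏ l, ((p : ℝ) ^ m (J l).1) ^ N := by
      have h2 := congrArg (fun y => ‖j y‖ ^ 2) hβN
      simp only [map_pow, map_prod, norm_pow, norm_prod] at h2
      rw [← pow_mul, mul_comm, pow_mul, hβw, ← Finset.prod_pow] at h2
      rw [h2]
      refine Finset.prod_congr rfl fun l _ => ?_
      rw [← pow_mul, mul_comm, pow_mul]
      congr 1
      exact hweil (J l).1 (j.comp (J l).2)
    have h3 := congrArg (Real.logb p) h1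
    rw [Real.logb_prod _ _ (fun l _ => pow_ne_zero _ (pow_ne_zero _ hp0.ne'))] at h3
    simp only [Real.logb_pow, Real.logb_self_eq_one hp1, mul_one] at h3
    rw [← Finset.mul_sum] at h3
    rw [← hcJ fun x => (m x.1 : ℝ)]
    exact mul_left_cancel₀ hNR h3
  let e : (Σ l, (K l →+* L)) → ℝ := fun x => dev p (m x.1) (π x.1) (jp.comp x.2)
  let eβ : (L ≃ₐ[ℚ] L) → ℝ := fun σ => 2 * (-Real.logb p ‖jp (σ β)‖) - w
  have hbb : ∀ x : Σ i, (K i →+* L), xbar (xbar x) = x := by
    rintro ⟨i, φ⟩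
    change (⟨i, cbar (cbar φ)⟩ : Σ i, (K i →+* L)) = _
    rw [cbar_cbar]
  have hodd : ∀ x, e (xbar x) = - e x := fun x => dev_odd hweil x.1 (jp.comp x.2)
  have hsum : ∀ σ : L ≃ₐ[ℚ] L, ∑ x, (c x : ℝ) * e (act σ x) = eβ σ := by
    intro σ
    have h1 := congrArg (fun y => Real.logb p ‖jp (σ y)‖) hβN
    simp only [map_pow, map_prod, norm_pow, norm_prod] at h1
    rw [Real.logb_prod _ _ (fun l _ => pow_ne_zero _ (norm_ne_zero_iff.2
      ((_root_.map_ne_zero jp).2 ((_root_.map_ne_zero σ).2 (hv0 (J l))))))] at h1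
    simp only [Real.logb_pow] at h1
    rw [← Finset.mul_sum] at h1
    have h2 := mul_left_cancel₀ hNR h1
    rw [hcJ fun x => Real.logb p ‖jp (σ (val π x))‖] at h2
    have h3 : ∀ x, (c x : ℝ) * e (act σ x) =
        -(2 * ((c x : ℝ) * Real.logb p ‖jp (σ (val π x))‖)) - (c x : ℝ) * (m x.1 : ℝ) := by
      intro x
      change (c x : ℝ) * (2 * (-Real.logb p ‖jp (σ (val π x))‖) - ((m x.1 : ℕ) : ℝ)) = _
      push_cast
      ring
    rw [Finset.sum_congr rfl fun x _ => h3 x, Finset.sum_sub_distrib, Finset.sum_neg_distrib,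
      ← Finset.mul_sum, ← h2, ← hwt]
    simp only [eβ]
    ring
  obtain ⟨x0, b, r, hb1, hb2, hb3, hb4⟩ := core2 (L := L) hgen hdist
    (fun x => (c x : ℚ) - c (xbar x)) e (fun x => by rw [hbb]; ring) hodd
    (fun σ => -2 * eβ σ) (fun σ => by
      have h1 : ∑ x : Σ i, (K i →+* L), (c (xbar x) : ℝ) * e (act σ x) =
          ∑ x : Σ i, (K i →+* L), -((c x : ℝ) * e (act σ x)) := by
        refine Finset.sum_nbij' xbar xbar (fun _ _ => Finset.mem_univ _)
          (fun _ _ => Finset.mem_univ _) (fun y _ => hbb y) (fun y _ => hbb y) (fun y _ => ?_)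
        have h2 : act σ (xbar y) = xbar (act σ y) := rfl
        rw [h2, hodd]
        ring
      have h2 : ∀ x : Σ i, (K i →+* L), (((c x : ℚ) - c (xbar x) : ℚ) : ℝ) * e (act σ x) =
          (c x : ℝ) * e (act σ x) - (c (xbar x) : ℝ) * e (act σ x) := by
        intro x
        push_cast
        ring
      rw [Finset.sum_congr rfl fun x _ => h2 x, Finset.sum_sub_distrib, h1,
        Finset.sum_neg_distrib, hsum σ]
      ring) ⟨x, fun h0 => hcon (by
        have h2 := sub_eq_zero.1 h0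
        exact_mod_cast h2)⟩ (fun _ => 1) (fun _ => one_pos)
  obtain ⟨D, hD, hD2⟩ := comb_mem (m := m) hgen hdist hne hπ0 jp x0 b hb2 hb3
  obtain ⟨g, d, hg1, hg2, hg3, hd, hgd, hprod⟩ := norm_power x0.2 β
  have hgdvd : g ∣ (minpoly ℚ (j β)).map (algebraMap ℚ (K x0.1)) := by
    have h1 : minpoly ℚ (j β) = minpoly ℚ β :=
      minpoly.algHom_eq (j.toRatAlgHom) j.injective β
    rw [h1]
    exact hg3
  refine hcl x0.1 g hg1 hg2 hgdvd (span_union_mem (r := r * (-2 * d)) hD ?_)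
  funext τ
  obtain ⟨ψ, rfl⟩ := Pool.Agent.H977R3.WN.factor j (hj x0.1) jp τ
  obtain ⟨σ, rfl⟩ := MulAction.exists_smul_eq (L ≃ₐ[ℚ] L) x0.2 ψ
  rw [Pi.add_apply, Pi.smul_apply, Rat.smul_def, hD2]
  refine (hb4 σ).trans ?_
  congr 1
  push_cast
  rw [mul_assoc]
  congr 1
  rw [← Finset.mul_sum, mul_assoc]
  congr 1
  simp only [eβ]
  rw [Finset.sum_sub_distrib, Finset.sum_const, nsmul_eq_mul, ← hgd]
  have h1 : ∑ τ ∈ Finset.univ.filter (fun τ : L ≃ₐ[ℚ] L => τ • x0.2 = x0.2),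
      2 * (-Real.logb p ‖jp ((σ * τ) β)‖) =
      2 * (-Real.logb p ‖jp (σ (∏ τ ∈ Finset.univ.filter
        (fun τ : L ≃ₐ[ℚ] L => τ • x0.2 = x0.2), τ β))‖) := by
    rw [map_prod, map_prod, norm_prod, Real.logb_prod, ← Finset.sum_neg_distrib, Finset.mul_sum]
    · rfl
    · intro τ _
      rw [norm_ne_zero_iff]
      exact (_root_.map_ne_zero jp).2 ((_root_.map_ne_zero σ).2 ((_root_.map_ne_zero τ).2 hβ0))
  rw [h1, hprod]
  have h2 : ‖jp (σ (x0.2 (((-1) ^ g.natDegree * g.coeff 0) ^ d)))‖ =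
      ‖jp (σ (x0.2 (g.coeff 0)))‖ ^ d := by
    simp only [map_pow, map_mul, map_neg, map_one, norm_pow, norm_mul, norm_neg, norm_one, one_pow,
      one_mul]
  rw [h2, Real.logb_pow]
  change _ = (d : ℝ) * (2 * (-Real.logb p ‖jp (σ (x0.2 (g.coeff 0)))‖) - ((w * g.natDegree : ℕ) : ℝ))
  push_cast
  ring

end main

end Run7.h31.ES
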