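import Mathlib
import Pool.Agent.Run7.h31.ES.Rel
import Pool.Agent.Run7.h31.ES.Main
import Pool.Agent.Y137.MV.Final

/-!
# Splitting of classes by slope functions (helper31)
-/

set_option autoImplicit false
set_option linter.unusedSectionVars false
set_option linter.unusedVariables false

namespace Run7.h31.ES

open NumberField Module TensorProduct IntermediateField
open Pool.Agent.H204R3.CM Pool.Agent.H204R3.GP Pool.Agent.Y137.MV
  Pool.Agent.Y137.SL Pool.Agent.Y1.TS

/-- The Tate classes on the products `A ^ n × U` are generated by those on `A ^ n` of degree two and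
those on `U`, whenever `A` has a Frobenius element `γ` at a place with `p ^ a` elements in the
residue field with the characteristic polynomial `∏ i, minpoly (π i)` and the eigenvalues of `γ` on the
cohomology of `U` are roots of a rational polynomial all of whose roots do not interfere with
the family. -/
def ClassesSplitFromClear {p : ℕ} [Fact p.Prime] (a : ℕ) {I : Type} [Fintype I] (K : I → Type)
    [∀ i, Field (K i)] [∀ i, NumberField (K i)] [∀ i, IsCMField (K i)] (π : ∀ i, K i) : Prop :=
  ∀ (k : Type) [Field k] [CharZero k] (V : Type) [AddCommGroup V] [Module k V]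
    [FiniteDimensional k V] (M : Type) [AddCommGroup M] [Module k M] [FiniteDimensional k M]
    (Γ : Type) [Group Γ] (ρ : Representation k Γ V) (τ : Representation k Γ M) (χ : Γ →* k)
    (γ : Γ), IsPolarised ρ χ γ p a π →
    ∀ f : Polynomial ℚ, f ≠ 0 → Polynomial.aeval (τ γ) (f.map (algebraMap ℚ k)) = 0 →
    (∀ α : ℂ, Polynomial.aeval α f = 0 → NoInterference p (fun _ => a) π α) → ClassesSplit ρ χ τ

theorem forces_of_clear {p : ℕ} [Fact p.Prime] {a : ℕ}
    {ι : Type} [Fintype ι] {F : ι → Type} [∀ i, Field (F i)] [∀ i, NumberField (F i)]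
    [∀ i, IsCMField (F i)] {π : ∀ i, F i} (h : IsWeilFamily p (fun _ => a) π)
    {L : Type} [Field L] [NumberField L] [IsGalois ℚ L] (j : L →+* ℂ)
    (hj : ∀ i, ∀ ψ : F i →+* ℂ, ∃ φ : F i →+* L, j.comp φ = ψ) (β : L) (i : ι)
    (hf : NoInterference p (fun _ => a) π (j β)) : Forces π β i := by
  classical
  obtain ⟨w, hw1, hw2⟩ := hf
  intro T N J hN hβN φ
  have hβw : ‖j β‖ ^ 2 = (p : ℝ) ^ w := hw1 _ (minpoly.aeval ℚ (j β))
  have h1 := balanced_of_clear h.generates h.distinct j hj h.weil hβw hw2 hN J hβN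
    (fun x => (Finset.univ.filter (fun l => J l = x)).card) (fun f => by
      rw [← Finset.sum_fiberwise (s := Finset.univ) (g := fun l => J l)]
      refine Finset.sum_congr rfl fun x _ => ?_
      rw [Finset.sum_congr rfl (g := fun _ => f x) (fun l hl => by
        rw [(Finset.mem_filter.1 hl).2]), Finset.sum_const, nsmul_eq_mul]) ⟨i, φ⟩
  exact h1

theorem classesSplit_of_clear {p : ℕ} [Fact p.Prime] {a : ℕ}
    {ι : Type} [Fintype ι] {F : ι → Type} [∀ i, Field (F i)] [∀ i, NumberField (F i)]
    [∀ i, IsCMField (F i)] {π : ∀ i, F i} (hfam : IsWeilFamily p (fun _ => a) π)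
    (hs : SlopesIndependent p (fun _ => a) π) : ClassesSplitFromClear (p := p) a F π := by
  classical
  intro k _ _ V _ _ _ M _ _ _ Γ _ ρ τ χ γ hp f hf0 hfγ hf
  obtain ⟨hss, ⟨ω, halt, hnd, hωρ⟩, hχ, hγ⟩ := hp
  have hgen := hfam.generates
  have hw : ∀ i, π i * IsCMField.complexConj (F i) (π i) = (p : F i) ^ a :=
    mul_conj_of_family hfam
  have hang := (angle_iff hfam).2 hs
  have hπ0 : ∀ i, π i ≠ 0 := by
    intro i h0
    have h1 := hw i
    rw [h0, zero_mul] at h1
    exact pow_ne_zero a (Nat.cast_ne_zero.2 (Fact.out : p.Prime).ne_zero) h1.symm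
  obtain ⟨L, hLa, hLb, j, h, hroots⟩ := exists_galois_roots F f hf0
  have hneat : Neat p a π L := neat_of_angle j hang
  have hun : ∀ β : L, Polynomial.aeval β f = 0 → ∀ i, Forces π β i := by
    intro β hβ i
    have hα : Polynomial.aeval (j β) f = 0 := by
      have h1 := Polynomial.aeval_algHom_apply (RingHom.equivRatAlgHom L ℂ j) β f
      rw [hβ, map_zero] at h1
      exact h1
    exact forces_of_clear hfam j h β i (hf (j β) hα)
  have hss' : ∀ Δ : Subgroup Γ, Δ.FiniteIndex → SemiUnder (ρ '' (Δ : Set Γ)) := by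
    intro Δ hΔ U hU
    obtain ⟨U', h1, h2⟩ := hss Δ hΔ U (fun s hs u hu => hU _ ⟨s, hs, rfl⟩ u hu)
    refine ⟨U', ?_, h1⟩
    rintro _ ⟨s, hs, rfl⟩ u hu
    exact h2 s hs u hu
  constructor
  · intro n m g hg
    have h1 := final_step ρ χ τ g hg (fun l => alt_of_comp ρ χ _ (fun c => by
      have h2 := comp_mem (L := L) ρ χ τ hgen hw j h hneat ω halt hnd hωρ hss' γ hχ hγ hun hroots
        hfγ (component_eqv hg c) l
      exact h2))
    refine Submodule.span_mono ?_ h1
    rintro x ⟨y, ⟨B, hB, hy⟩, w, hw, hx⟩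
    refine ⟨B, w, hB, hw, fun v => ?_⟩
    rw [hx, hy]
  · intro n m g hg
    ext v
    have h1 : v = fun l => ∑ i, Pi.single i (v l i) := by
      funext l
      exact (Finset.univ_sum_single (v l)).symm
    have h2 : g v = ∑ c : Fin (2 * m + 1) → Fin n,
        g.toMultilinearMap.compLinearMap
          (fun l => LinearMap.single k (fun _ : Fin n => V) (c l)) (fun l => v l (c l)) := by
      conv_lhs => rw [h1]
      exact g.toMultilinearMap.map_sum (fun l i => Pi.single i (v l i))
    rw [h2]
    refine Finset.sum_eq_zero fun c _ => ?_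
    have h3 := odd_zero (L := L) ρ χ τ hgen hw j h hneat ω halt hnd hωρ γ hχ hγ hun hroots
        hfγ (κ := Fin (2 * m + 1)) (by
          rw [Fintype.card_fin]
          exact ⟨m, rfl⟩) (component_eqv hg c)
    rw [h3]
    rfl

end Run7.h31.ES
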